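import Pool.Agent.H19.STAT.Sys
import Pool.Agent.H35.K2S.Stab

/-!
# Window-free tubes, layer 2: the count from rows which are not full (row N2), statements

`Vf` are all the digits of the base (the coordinates before `n`), with any side information. A
closed label of level `v'` does not see the base beyond its own precision (`exact`), the label of
level `v` and the natural digits of the base leave only the further digits (`count`), and the rows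
of the height given the whole base are not full (`rate`). Then the natural digits of the height
given the label of level `v` and the natural digits of the base are not full, and on a large event
their number is small.
-/

set_option autoImplicit false

namespace Pool.STAT

open Finset MvPolynomial
open Pool.Agent.H49.Ent Pool.Agent.H32.Dense Pool.STK Pool.KS3 Pool.K2S
open Pool.BFL (Pl CB Pb P2 MC alt)

namespace NDat

/-- The natural digits of the base at the level `v`, to `U` levels. -/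
noncomputable def bd (D : NDat) (z U v : ℕ) {n : ℕ} (ω : D.Ω) (i : Fin n) : ℤ :=
  ⌊(2 : ℝ) ^ (U * z) * D.pT v ω i⌋

/-- **The inputs of a row** at the level `v`, with `U` levels. `tot` is the entropy of all the
digits of the base. -/
structure Row (D : NDat) (n z M U : ℕ) (d : ℕ → ℕ) (a C : ℝ) {𝒱 : Type} (Vf : D.Ω → 𝒱)
    (tot : ℝ) (v : ℕ) (q : D.Ω → ℝ) : Prop where
  exact : ∀ v', v ≤ v' → v' ≤ v + U → v' ≤ M →
    tot - ∑ i ∈ range n, (D.g v' i : ℝ) * Real.log 2 - C * z ≤ CH q Vf (D.c v')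
  count : CH q Vf (fun ω => (D.c v ω, (D.bd z U v ω : Fin n → ℤ))) ≤
    tot - ∑ i ∈ range n, ((D.g v i : ℝ) + U * z) * Real.log 2 + C * z
  rate : ∀ P : ℕ, P ≤ U * z → CH q (fun ω => ⌊(2 : ℝ) ^ P * D.pN d z v n ω⌋)
    (fun ω => (Vf ω, (D.c v ω, (D.bd z U v ω : Fin n → ℤ)))) ≤
    (1 - a) * (P * Real.log 2) + C * z

end NDat

/-- **(A)** The natural digits of the base and of the height, given a finer label. -/
def EntwStmt : Prop :=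
  ∀ (n K : ℕ) (d : ℕ → ℕ) (C₁ : ℝ), 1 ≤ n → d 0 = 1 → (∀ i, 1 ≤ d i) → 1 ≤ C₁ →
    ∃ C₃ : ℝ, 1 ≤ C₃ ∧ ∀ U M : ℕ, 1 ≤ U → ∃ κ : ℝ, 0 < κ ∧ ∃ z₀ : ℕ,
    ∀ (J z v j : ℕ) (D : NDat) (q : D.Ω → ℝ), z₀ ≤ z →
      D.Ok n K J z M (fun i => d i) κ C₁ q → j ≤ v → v + 2 * j ≤ M → (∀ i < n, 2 * j * d i ≤ U) →
      CH q (fun ω => (D.bd z U v ω : Fin n → ℤ)) (D.c (v + 2 * j)) ≤
        ∑ i ∈ range n, ((U : ℝ) - 2 * j * d i) * (z * Real.log 2) + C₃ * z ∧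
      ∀ P : ℕ, P ≤ U * z → P ≤ d n * (2 * j * z) →
        CH q (fun ω => ⌊(2 : ℝ) ^ P * D.pN d z v n ω⌋)
          (fun ω => (D.c (v + 2 * j) ω, (D.bd z U v ω : Fin n → ℤ))) ≤ C₃ * z

/-- **(B)** The digits of the height given the label and the digits of the base. -/
def RatwStmt : Prop :=
  ∀ (n K : ℕ) (d : ℕ → ℕ) (C₁ C₂ a : ℝ), 1 ≤ n → d 0 = 1 → (∀ i, 1 ≤ d i) → 1 ≤ C₁ → 1 ≤ C₂ →
    0 ≤ a → a ≤ 1 → ∃ C₃ ρ : ℝ, 1 ≤ C₃ ∧ 0 < ρ ∧ ρ ≤ 1 ∧ ∀ U M : ℕ, 1 ≤ U →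
    ∃ κ : ℝ, 0 < κ ∧ ∃ z₀ : ℕ,
    ∀ (J z v : ℕ) (D : NDat) (q : D.Ω → ℝ) (𝒱 : Type) (Vf : D.Ω → 𝒱) (tot : ℝ), z₀ ≤ z →
      D.Ok n K J z M (fun i => d i) κ C₁ q → U ≤ v → v + 2 * U ≤ M →
      D.Row n z M U d a C₂ Vf tot v q → ∀ P : ℕ, (P : ℝ) ≤ ρ * (U * z) →
      CH q (fun ω => ⌊(2 : ℝ) ^ P * D.pN d z v n ω⌋)
        (fun ω => (D.c v ω, (D.bd z U v ω : Fin n → ℤ))) ≤ (1 - a) * (P * Real.log 2) + C₃ * z

/-- **(C)** The count, on a large event. -/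
def UcwStmt : Prop :=
  ∀ (n K : ℕ) (d : ℕ → ℕ) (C₁ C₂ a : ℝ), 1 ≤ n → d 0 = 1 → (∀ i, 1 ≤ d i) → 1 ≤ C₁ → 1 ≤ C₂ →
    0 ≤ a → a ≤ 1 → ∃ C₃ ρ : ℝ, 1 ≤ C₃ ∧ 0 < ρ ∧ ρ ≤ 1 ∧ ∀ U M : ℕ, 1 ≤ U →
    ∃ κ : ℝ, 0 < κ ∧ ∀ κ₂ : ℝ, 0 < κ₂ → ∃ z₀ : ℕ,
    ∀ (J z : ℕ) (D : NDat) (p : D.Ω → ℝ) (A : D.Ω → Prop) (𝒱 : Type) (Vf : D.Ω → 𝒱) (tot : ℝ),
      z₀ ≤ z → IsLaw p → 0 < Pe p A →
      (∀ B : D.Ω → Prop, (∀ ω, B ω → A ω) → Real.exp (-(κ₂ * z)) * Pe p A ≤ Pe p B →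
        D.Ok n K J z M (fun i => d i) κ C₁ (Pool.Agent.H49.Ent.cond p B True) ∧
        ∀ k, k + 3 * U ≤ M →
          D.Row n z M U d a C₂ Vf tot (k + U) (Pool.Agent.H49.Ent.cond p B True)) →
      ∃ B : D.Ω → Prop, (∀ ω, B ω → A ω) ∧ Real.exp (-(κ₂ * z)) * Pe p A ≤ Pe p B ∧
        ∀ k, k + 3 * U ≤ M →
          D.Cnt d z n (k + U) U ρ a C₃ (Pool.Agent.H49.Ent.cond p B True)

end Pool.STAT
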