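import Pool.Agent.H19.STAT.Cpt2

/-!
# Window-free tubes, layer 2: the sample in the adapted coordinates of a finer level

Sharp form of the first part of row CPT, for two arbitrary levels `v ≤ v'`: the adapted
coordinates of the level `v'` of the sample, in units of the level `v`, are at most
`exp (C z) / 2 ^ (d i (v' - v) z)`.
-/

set_option autoImplicit false

namespace Pool.STAT.Cnt12

open Finset MvPolynomial Pool.STAT
open Pool.Agent.H49.Ent Pool.Agent.H32.Dense Pool.STK Pool.KS3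
open Pool.BFL (Pl CB Pb P2 MC alt)

theorem unit_eq {z v v' e : ℕ} (hv : v ≤ v') :
    (2 : ℝ) ^ (e * (v * z)) * rd z v' ^ e = 1 / 2 ^ (e * ((v' - v) * z)) := by
  unfold rd
  obtain ⟨j, rfl⟩ : ∃ j, v' = v + j := ⟨v' - v, by omega⟩
  rw [Nat.add_sub_cancel_left, one_div_pow, ← pow_mul]
  have h1 : (v + j) * z * e = e * (v * z) + e * (j * z) := by ring
  rw [h1, pow_add]
  field_simp

/-- The sample, in the adapted coordinates of the level `v'`, in units of the level `v`. -/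
theorem own (hA : AdxStmt) (hD : DgbStmt) (hL : LadStmt) (n K : ℕ) (d : ℕ → ℕ) (C₁ C₂ : ℝ)
    (h0 : d 0 = 1) (hd : ∀ i, 1 ≤ d i) (hC₁ : 1 ≤ C₁) (hC₂ : 1 ≤ C₂) :
    ∃ C₃ : ℝ, 1 ≤ C₃ ∧ ∀ M : ℕ, ∃ z₀ : ℕ, ∀ (J z v v' : ℕ) (κ : ℝ) (D : NDat) (q : D.Ω → ℝ),
    z₀ ≤ z → D.Ok n K J z M (fun i => d i) κ C₁ q → v ≤ v' → v' ≤ M → ∀ ω, 0 < q ω →
    D.JG d z (fun i => d i) C₂ M n ω →
    (∀ i : Fin n, |D.thT K d z C₁ C₂ v v' (D.cs v' ω) (D.pT v ω : Fin n → ℝ) i| ≤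
      Real.exp (C₃ * z) / 2 ^ (d i * ((v' - v) * z))) ∧
    |D.pN d z v n ω - D.shN K d z C₁ C₂ v v' (D.cs v' ω) (D.pT v ω : Fin n → ℝ)| ≤
      Real.exp (C₃ * z) / 2 ^ (d n * ((v' - v) * z)) := by
  obtain ⟨CB, hCB, hbnd⟩ := bnd hA hD hL n K d C₁ C₂ h0 hd hC₁ hC₂
  refine ⟨CB, hCB, fun M => ?_⟩
  have hbN : ∀ v ∈ range (M + 1), ∃ z₀ : ℕ, ∀ (z : ℕ) (Φ : ℕ → ℕ → PN) (g : ℕ → ℕ)
      (b : ℕ → ℝ), z₀ ≤ z → LBase K (n + 1) v Φ → Lad d z (fun i => d i) C₂ v (n + 1) Φ →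
    (∀ i ≤ n, |(g i : ℝ) - d i * (v * z)| ≤ C₁ * z) →
    (∀ i ≤ n, |b i - eval b (Φ v i)| ≤ 2 / 2 ^ g i) →
    ∀ i ≤ n, |ac d (Φ v) b i| ≤ Real.exp (CB * z) * rd z v ^ d i := fun v _ => hbnd v
  choose! zb hzb using hbN
  refine ⟨(range (M + 1)).sup zb, fun J z v v' κ D q hz hok hvv hv'M ω hω hJ => ?_⟩
  have hzv : zb v' ≤ z := (Finset.le_sup (f := zb) (mem_range.2 (by omega))).trans hz
  set Φ := D.Φs M ω with hΦ
  have hB : LBase K (n + 1) (M + 1) Φ := NDat.lbase_Φs hok hω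
  have hΦv : ∀ l ≤ M, Φ l = D.P l (D.c l ω) := fun l hl => if_pos hl
  have hGB : D.GB K d z C₁ C₂ v' n (D.cs v' ω) := NDat.gb_of hok (fun _ => rfl) hv'M hω hJ
  have htv : TriN (D.P v (D.c v ω)) := hok.P_tri _ _
  have htv' : TriN (D.P v' (D.c v' ω)) := hok.P_tri _ _
  have hcs' : D.cs v' ω v' = D.c v' ω := NDat.cs_of_le le_rfl ω
  have hcs : D.cs v' ω v = D.c v ω := NDat.cs_of_le hvv ω
  have h1 := hzb v' (mem_range.2 (by omega)) z Φ (D.g v') (D.X ω) hzv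
    ⟨fun l hl => hB.deg l (by omega), fun l hl => hB.tri l (by omega), hB.zero, hB.base⟩
    (fun l hl => hJ l (by omega)) (fun i hi => hok.hom v' hv'M i hi)
    (fun i hi => by
      rw [hΦv v' hv'M]
      have := hok.hgt v' hv'M ω hω i hi
      refine this.trans ?_
      exact div_le_div_of_nonneg_right (by norm_num) (by positivity))
  have hfin : ∀ i ≤ n, (2 : ℝ) ^ (d i * (v * z)) * |ac d (Φ v') (D.X ω) i| ≤
      Real.exp (CB * z) / 2 ^ (d i * ((v' - v) * z)) := by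
    intro i hi
    calc (2 : ℝ) ^ (d i * (v * z)) * |ac d (Φ v') (D.X ω) i|
        ≤ 2 ^ (d i * (v * z)) * (Real.exp (CB * z) * rd z v' ^ d i) :=
          mul_le_mul_of_nonneg_left (h1 i hi) (by positivity)
      _ = Real.exp (CB * z) * (2 ^ (d i * (v * z)) * rd z v' ^ d i) := by ring
      _ = _ := by
        rw [unit_eq hvv]
        ring
  refine ⟨fun i => ?_, ?_⟩
  · have h2 : D.thT K d z C₁ C₂ v v' (D.cs v' ω) (D.pT v ω : Fin n → ℝ) i =
        (2 : ℝ) ^ (d i * (v * z)) * ac d (Φ v') (D.X ω) i := by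
      unfold NDat.thT
      rw [if_pos hGB, hcs', hΦv v' hv'M]
      unfold ac
      congr 1
      refine eval_congr_vars fun l hl => ?_
      have := mem_range.1 (tinv_vars' hA h0 hd htv' i hl)
      exact NDat.ab_pT hA h0 hd hvv ω htv (by omega)
    rw [h2, abs_mul, abs_of_pos (by positivity)]
    exact hfin i i.2.le
  · have h2 : D.pN d z v n ω - D.shN K d z C₁ C₂ v v' (D.cs v' ω) (D.pT v ω : Fin n → ℝ) =
        (2 : ℝ) ^ (d n * (v * z)) * ac d (Φ v') (D.X ω) n := by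
      unfold NDat.shN
      rw [if_pos hGB, hcs', hcs, hΦv v' hv'M]
      have h3 : eval (D.ab v (D.cs v' ω) (D.pT v ω : Fin n → ℝ))
          (X n - tinv (adp d (D.P v' (D.c v' ω))) n - D.P v (D.c v ω) n) =
          eval (D.X ω) (X n - tinv (adp d (D.P v' (D.c v' ω))) n - D.P v (D.c v ω) n) := by
        refine eval_congr_vars fun l hl => ?_
        refine NDat.ab_pT hA h0 hd hvv ω htv ?_
        classical
        rcases Finset.mem_union.1 (vars_sub_subset _ hl) with h4 | h4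
        · have h5 : X n - tinv (adp d (D.P v' (D.c v' ω))) n =
              -(tinv (adp d (D.P v' (D.c v' ω))) n - X n) := by ring
          rw [h5, vars_neg] at h4
          exact mem_range.1 (tinv_vars hA h0 hd htv' n h4)
        · exact mem_range.1 (htv n h4)
      rw [h3, map_sub, map_sub, eval_X]
      unfold NDat.pN NDat.rh ac
      ring
    rw [h2, abs_mul, abs_of_pos (by positivity)]
    exact hfin n le_rfl

end Pool.STAT.Cnt12
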