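import Pool.Agent.H12.STAT.CntS
import Pool.Agent.H12.STAT.Own
import Pool.Agent.H39.BFL.Prob

/-!
# Window-free tubes, layer 2: entropies of the natural digits, given a finer label (row N2, (A))
-/

set_option autoImplicit false

namespace Pool.STAT.Cnt12

open Finset MvPolynomial Pool.STAT
open Pool.Agent.H49.Ent Pool.Agent.H32.Dense Pool.STK Pool.KS3
open Pool.BFL (Pl CB Pb P2 MC alt)

section ent

variable {Ω : Type} [Fintype Ω] {S T : Type}

/-- Entropy of a vector. -/
theorem ch_fin {q : Ω → ℝ} (hq : ∀ ω, 0 ≤ q ω) : ∀ {n : ℕ} (X : Ω → Fin n → S) (W : Ω → T),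
    CH q X W ≤ ∑ i, CH q (fun ω => X ω i) W
  | 0, X, W => by
    rw [CH_eq_zero hq fun ω ω' _ _ _ => funext fun i => i.elim0]
    simp
  | n + 1, X, W => by
    have h1 : CH q X W ≤ CH q (fun ω => (X ω 0, fun i : Fin n => X ω i.succ)) W :=
      CH_mono_left hq fun ω ω' _ _ h => by
        have h2 := Prod.ext_iff.mp (Prod.ext_iff.mp h).1
        funext i
        refine Fin.cases h2.1 (fun j => congrFun h2.2 j) i
    have h2 := CH_subadd hq (fun ω => X ω 0) (fun ω (i : Fin n) => X ω i.succ) W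
    have h3 := ch_fin hq (fun ω (i : Fin n) => X ω i.succ) W
    rw [Fin.sum_univ_succ]
    linarith

/-- The price of an event. -/
theorem ch_ev {q : Ω → ℝ} (hq : IsLaw q) (X : Ω → S) (W : Ω → T) (G : Ω → Prop) :
    CH q X W ≤ 1 + CH q X (fun ω => (G ω, W ω)) := by
  classical
  have h1 := CH_le_add hq.nonneg X (fun ω => G ω) W
  have h2 : CH q (fun ω => G ω) W ≤ 1 := by
    refine (CH_le_card hq.nonneg hq.sum_one (fun ω => G ω) W (fun _ => {True, False})
      fun ω _ => ?_).trans ?_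
    · by_cases h : G ω <;> simp [h]
    · rw [Ex_const hq.sum_one]
      have h3 : (({True, False} : Finset Prop).card : ℝ) ≤ 2 := by
        exact_mod_cast Finset.card_le_two
      have h4 : (0 : ℝ) < (({True, False} : Finset Prop).card : ℝ) := by
        exact_mod_cast Finset.card_pos.2 ⟨True, by simp⟩
      have h5 := Real.log_le_sub_one_of_pos h4
      linarith
  linarith

/-- Integers which are near on an event. -/
theorem ch_int {q : Ω → ℝ} (hq : IsLaw q) (X : Ω → ℤ) (W : Ω → T) (G : Ω → Prop) {a b η : ℝ}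
    (ha : 0 ≤ a) (hb : 0 ≤ b) (hη : Pb q (fun ω => ¬ G ω) ≤ η)
    (h1 : ∀ ω ω', 0 < q ω → 0 < q ω' → G ω → G ω' → W ω = W ω' →
      |((X ω - X ω' : ℤ) : ℝ)| ≤ a)
    (h2 : ∀ ω ω', 0 < q ω → 0 < q ω' → |((X ω - X ω' : ℤ) : ℝ)| ≤ b) :
    CH q X (fun ω => (G ω, W ω)) ≤ Real.log (2 * a + 1) + η * Real.log (2 * b + 1) := by
  classical
  have h3 := CH_le_int hq.nonneg hq.sum_one X (fun ω => (G ω, W ω))
    (fun ω => if G ω then a else b) (fun ω ω' hω hω' e => by
      have e1 := Prod.ext_iff.mp e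
      by_cases hG : G ω
      · rw [if_pos hG]
        have hG' : G ω' := by
          have := e1.1
          simp only at this
          rwa [this] at hG
        exact h1 ω ω' hω hω' hG hG' e1.2
      · rw [if_neg hG]
        exact h2 ω ω' hω hω')
  refine h3.trans ?_
  have hla : 0 ≤ Real.log (2 * a + 1) := Real.log_nonneg (by linarith)
  have hlb : 0 ≤ Real.log (2 * b + 1) := Real.log_nonneg (by linarith)
  unfold Ex
  calc ∑ ω, q ω * Real.log (2 * (if G ω then a else b) + 1)
      ≤ ∑ ω, (q ω * Real.log (2 * a + 1) +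
        (if ¬ G ω then q ω else 0) * Real.log (2 * b + 1)) := by
        refine Finset.sum_le_sum fun ω _ => ?_
        by_cases hG : G ω
        · rw [if_pos hG, if_neg (not_not.2 hG)]
          linarith
        · rw [if_neg hG, if_pos hG]
          have := mul_nonneg (hq.nonneg ω) hla
          linarith
    _ = Real.log (2 * a + 1) + Pb q (fun ω => ¬ G ω) * Real.log (2 * b + 1) := by
        rw [Finset.sum_add_distrib, ← Finset.sum_mul, ← Finset.sum_mul, hq.sum_one, one_mul]
        congr 2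
        unfold Pb
        exact Finset.sum_congr rfl fun ω _ => by congr
    _ ≤ _ := by
        have := mul_le_mul_of_nonneg_right hη hlb
        linarith

end ent

theorem floor_near {a x y B : ℝ} (ha : 0 ≤ a) (h : |x - y| ≤ B) :
    |((⌊a * x⌋ - ⌊a * y⌋ : ℤ) : ℝ)| ≤ a * B + 1 := by
  have h1 := Int.floor_le (a * x)
  have h2 := Int.lt_floor_add_one (a * x)
  have h3 := Int.floor_le (a * y)
  have h4 := Int.lt_floor_add_one (a * y)
  have h5 := abs_le.1 h
  have h6 : a * (x - y) ≤ a * B := mul_le_mul_of_nonneg_left h5.2 ha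
  have h7 : a * -B ≤ a * (x - y) := mul_le_mul_of_nonneg_left h5.1 ha
  push_cast
  rw [abs_le]
  constructor <;> nlinarith

/-- Two reals in the same cell. -/
theorem cell_near {a x y : ℝ} (ha : 0 < a) (h : ⌊a * x⌋ = ⌊a * y⌋) : |x - y| ≤ 1 / a := by
  have h1 := Int.floor_le (a * x)
  have h2 := Int.lt_floor_add_one (a * x)
  have h3 := Int.floor_le (a * y)
  have h4 := Int.lt_floor_add_one (a * y)
  rw [h] at h1 h2
  have h5 : |x - y| * a = |(x - y) * a| := by rw [abs_mul, abs_of_pos ha]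
  rw [le_div_iff₀ ha, h5, abs_le]
  constructor <;> nlinarith

theorem pow_two_exp (k : ℕ) : (2 : ℝ) ^ k = Real.exp (k * Real.log 2) := by
  rw [Real.exp_nat_mul, Real.exp_log (by norm_num)]

theorem c_det {D : NDat} {n K J z M : ℕ} {σ : ℕ → ℝ} {κ C₁ : ℝ} {q : D.Ω → ℝ}
    (h : D.Ok n K J z M σ κ C₁ q) {v v' : ℕ} (hvv : v ≤ v') (hv : v' ≤ M) :
    Det q (D.c v') (D.c v) := by
  obtain ⟨j, rfl⟩ : ∃ j, v' = v + j := ⟨v' - v, by omega⟩
  clear hvv
  induction j with
  | zero => intro ω ω' _ _ e; exact e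
  | succ j ih =>
    intro ω ω' hω hω' e
    exact ih (by omega) ω ω' hω hω' (h.c_c (v + j) (by omega) ω ω' hω hω' e)

theorem cs_det {D : NDat} {n K J z M : ℕ} {σ : ℕ → ℝ} {κ C₁ : ℝ} {q : D.Ω → ℝ}
    (h : D.Ok n K J z M σ κ C₁ q) {v : ℕ} (hv : v ≤ M) : Det q (D.c v) (D.cs v) := by
  intro ω ω' hω hω' e
  funext k
  exact c_det h (min_le_right k v) hv ω ω' hω hω' e

/-- The natural coordinates of the sample are at most one. -/
theorem pT_le {D : NDat} {n K J z M : ℕ} {σ : ℕ → ℝ} {κ C₁ : ℝ} {q : D.Ω → ℝ}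
    (h : D.Ok n K J z M σ κ C₁ q) {v : ℕ} (hv : v ≤ M) {ω : D.Ω} (hω : 0 < q ω) (i : Fin n) :
    |D.pT v ω i| ≤ 1 := by
  have h1 := h.hgt v hv ω hω i i.2.le
  unfold NDat.pT
  rw [abs_mul, abs_of_pos (by positivity)]
  rwa [le_div_iff₀ (by positivity), mul_comm] at h1

/-- The height is at most `exp (C₁ z)`. -/
theorem pN_le {D : NDat} {n K J z M : ℕ} {d : ℕ → ℕ} {κ C₁ : ℝ} {q : D.Ω → ℝ}
    (h : D.Ok n K J z M (fun i => d i) κ C₁ q) {v : ℕ} (hv : v ≤ M) {ω : D.Ω} (hω : 0 < q ω)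
    (hC : 0 ≤ C₁) : |D.pN d z v n ω| ≤ Real.exp (C₁ * z) := by
  have h1 := h.hgt v hv ω hω n le_rfl
  have h2 := (abs_le.1 (h.hom v hv n le_rfl)).1
  unfold NDat.pN
  rw [abs_mul, abs_of_pos (by positivity)]
  have h3 : (2 : ℝ) ^ (d n * (v * z)) ≤ Real.exp (C₁ * z) * 2 ^ D.g v n := by
    rw [pow_two_exp, pow_two_exp, ← Real.exp_add]
    refine Real.exp_le_exp.2 ?_
    have l2 : 0 < Real.log 2 := Real.log_pos (by norm_num)
    have l2' : Real.log 2 ≤ 1 := by linarith [Real.log_two_lt_d9]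
    push_cast
    have h4 : (d n : ℝ) * (v * z) - D.g v n ≤ C₁ * z := by linarith
    have h5 : ((d n : ℝ) * (v * z) - D.g v n) * Real.log 2 ≤ C₁ * z * Real.log 2 :=
      mul_le_mul_of_nonneg_right h4 l2.le
    have h6 : C₁ * z * Real.log 2 ≤ C₁ * z * 1 :=
      mul_le_mul_of_nonneg_left l2' (by positivity)
    nlinarith
  calc (2 : ℝ) ^ (d n * (v * z)) * |D.rh v ω n| ≤
        (Real.exp (C₁ * z) * 2 ^ D.g v n) * (1 / 2 ^ D.g v n) :=
        mul_le_mul h3 h1 (abs_nonneg _) (by positivity)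
    _ = Real.exp (C₁ * z) := by field_simp

theorem log_le_of {x : ℝ} {k : ℕ} {A B : ℝ} (hx : 0 < x) (hk : 1 ≤ k)
    (h : x ≤ k * (Real.exp A * Real.exp B)) : Real.log x ≤ k + A + B := by
  have hk' : (0 : ℝ) < k := by exact_mod_cast hk
  refine (Real.log_le_log hx h).trans ?_
  rw [Real.log_mul hk'.ne' (by positivity), ← Real.exp_add, Real.log_exp]
  have := Real.log_le_sub_one_of_pos hk'
  linarith

end Pool.STAT.Cnt12

namespace Pool.STAT

open Finset MvPolynomial
open Pool.Agent.H49.Ent Pool.Agent.H32.Dense Pool.STK Pool.KS3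
open Pool.BFL (Pl CB Pb P2 MC alt)

open Cnt12 in
/-- **Row N2, (A).** -/
theorem entw_of (hA : AdxStmt) (hD : DgbStmt) (hL : LadStmt) (hN : NatStmt) (hJ : JbwStmt) :
    EntwStmt := by
  classical
  intro n K d C₁ hn h0 hd hC₁
  obtain ⟨C₂, hC₂, hJ⟩ := hJ n K d (fun i => d i) C₁ hn (slp_int n h0 hd) hC₁
  obtain ⟨CN, hCN, hN⟩ := hN n K d C₁ C₂ hn h0 hd hC₁ hC₂
  obtain ⟨CO, hCO, hO⟩ := own hA hD hL n K d C₁ C₂ h0 hd hC₁ hC₂
  have hn0 : (0 : ℝ) ≤ n := Nat.cast_nonneg n
  refine ⟨n * (CO + CN + 13) + (CO + CN + 12), by nlinarith, fun U M hU => ?_⟩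
  obtain ⟨η, hη⟩ : ∃ η : ℝ, η = 1 / (U + CN + C₁ + 7) := ⟨_, rfl⟩
  have hU0 : (0 : ℝ) ≤ U := Nat.cast_nonneg U
  have hη0 : 0 < η := by rw [hη]; positivity
  obtain ⟨κ₀, hκ₀, zJ, hJ⟩ := hJ M η hη0
  have hNj : ∀ j : ℕ, ∃ z₀ : ℕ, ∀ (z k : ℕ) (D : NDat) (x : ℕ → D.Γ), z₀ ≤ z →
    k + 3 * j ≤ M → ∀ y y' : Fin n → ℝ, (∀ i, |y i| ≤ 2) → (∀ i, |y' i| ≤ 2) →
    (∀ i, |D.thT K d z C₁ C₂ (k + j) (k + 3 * j) x y i| ≤ Real.exp (CN * z)) ∧
    ∀ δ : ℝ, ((∀ i, |y i - y' i| ≤ δ) →
      (∀ i, |D.thT K d z C₁ C₂ (k + j) (k + 3 * j) x y i -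
        D.thT K d z C₁ C₂ (k + j) (k + 3 * j) x y' i| ≤ Real.exp (CN * z) * δ) ∧
      |D.shN K d z C₁ C₂ (k + j) (k + 3 * j) x y -
        D.shN K d z C₁ C₂ (k + j) (k + 3 * j) x y'| ≤ Real.exp (CN * z) * δ) ∧
      ((∀ i, |D.thT K d z C₁ C₂ (k + j) (k + 3 * j) x y i -
        D.thT K d z C₁ C₂ (k + j) (k + 3 * j) x y' i| ≤ δ) →
      ∀ i, |y i - y' i| ≤ Real.exp (CN * z) * δ) := fun j => hN j M
  choose zN hzN using hNj
  obtain ⟨zO, hO⟩ := hO M
  refine ⟨κ₀, hκ₀, max (max zJ zO) (max 1 ((range (M + 1)).sup zN)), ?_⟩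
  intro J z v j D q hz hok hjv hvM hdU
  have hzJ : zJ ≤ z := (le_max_left _ _).trans ((le_max_left _ _).trans hz)
  have hzO : zO ≤ z := (le_max_right _ _).trans ((le_max_left _ _).trans hz)
  have hz1 : 1 ≤ z := (le_max_left _ _).trans ((le_max_right _ _).trans hz)
  have hzj : zN j ≤ z := (Finset.le_sup (f := zN) (mem_range.2 (by omega))).trans
    ((le_max_right _ _).trans ((le_max_right _ _).trans hz))
  obtain ⟨k, rfl⟩ : ∃ k, v = k + j := ⟨v - j, by omega⟩
  have e3 : k + j + 2 * j = k + 3 * j := by ring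
  rw [e3] at hvM ⊢
  have hzR : (1 : ℝ) ≤ z := by exact_mod_cast hz1
  have hq := hok.isLaw
  have hqn := hq.nonneg
  have l2 : 0 < Real.log 2 := Real.log_pos (by norm_num)
  have l2' : Real.log 2 ≤ 1 := by linarith [Real.log_two_lt_d9]
  have hnat := fun (x : ℕ → D.Γ) => hzN j z k D x hzj hvM
  have hown := fun ω hω hJω => hO J z (k + j) (k + 3 * j) κ₀ D q hzO hok (by omega) hvM ω hω hJω
  have hbad := hJ J z κ₀ D q hzJ le_rfl hok
  have hpT : ∀ ω, 0 < q ω → ∀ i : Fin n, |(D.pT (k + j) ω : Fin n → ℝ) i| ≤ 2 := fun ω hω i =>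
    (pT_le hok (by omega) hω i).trans (by norm_num)
  have hcs : Det q (D.c (k + 3 * j)) (D.cs (k + 3 * j)) := cs_det hok hvM
  have hUz : (0 : ℝ) < 2 ^ (U * z) := by positivity
  have hsub : k + 3 * j - (k + j) = 2 * j := by omega
  obtain ⟨S, hS⟩ : ∃ S : D.Ω → D.Γ, S = D.c (k + 3 * j) := ⟨_, rfl⟩
  obtain ⟨G, hG⟩ : ∃ G : D.Ω → Prop, G = fun ω => D.JG d z (fun i => d i) C₂ M n ω := ⟨_, rfl⟩
  have hbG : Pb q (fun ω => ¬ G ω) ≤ η := by rw [hG]; exact hbad
  have hηb : ∀ x : ℝ, x ≤ (U + CN + C₁ + 7) * z → η * x ≤ z := by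
    intro x hx
    calc η * x ≤ η * ((U + CN + C₁ + 7) * z) := mul_le_mul_of_nonneg_left hx hη0.le
      _ = z := by
        rw [hη]
        field_simp
  refine ⟨?_, ?_⟩
  · -- the base
    obtain ⟨th, hth⟩ : ∃ th : D.Ω → Fin n → ℤ, th = fun ω i => ⌊(2 : ℝ) ^ (U * z) *
      D.thT K d z C₁ C₂ (k + j) (k + 3 * j) (D.cs (k + 3 * j) ω)
        (D.pT (k + j) ω : Fin n → ℝ) i⌋ := ⟨_, rfl⟩
    have s1 := ch_ev hq (fun ω => (D.bd z U (k + j) ω : Fin n → ℤ)) S G
    have s2 := CH_le_add hqn (fun ω => (D.bd z U (k + j) ω : Fin n → ℤ)) th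
      (fun ω => (G ω, S ω))
    have s3 := ch_fin hqn th (fun ω => (G ω, S ω))
    have s4 := ch_fin hqn (fun ω => (D.bd z U (k + j) ω : Fin n → ℤ))
      (fun ω => (th ω, (G ω, S ω)))
    have s5 : ∀ i : Fin n, CH q (fun ω => th ω i) (fun ω => (G ω, S ω)) ≤
        ((U : ℝ) - 2 * j * d i) * (z * Real.log 2) + (CO + 8) * z := by
      intro i
      have hdi : ((2 * j * d i : ℕ) : ℝ) ≤ U := by exact_mod_cast hdU i i.2
      obtain ⟨r, hr⟩ : ∃ r : ℝ, r = Real.exp (CO * z) / 2 ^ (d i * (2 * j * z)) := ⟨_, rfl⟩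
      have hr0 : 0 < r := by rw [hr]; positivity
      have h1 := ch_int hq (fun ω => th ω i) S G (a := 2 ^ (U * z) * (2 * r) + 1)
        (b := 2 ^ (U * z) * (2 * Real.exp (CN * z)) + 1) (η := η) (by positivity)
        (by positivity) hbG ?_ ?_
      · refine h1.trans ?_
        have h2 : Real.log (2 * (2 ^ (U * z) * (2 * r) + 1) + 1) ≤
            (7 : ℕ) + CO * z + ((U : ℝ) - 2 * j * d i) * (z * Real.log 2) := by
          refine log_le_of (by positivity) (by norm_num) ?_
          have h3 : (2 : ℝ) ^ (U * z) * r = Real.exp (CO * z) *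
              Real.exp (((U : ℝ) - 2 * j * d i) * (z * Real.log 2)) := by
            rw [hr, pow_two_exp, pow_two_exp, ← Real.exp_sub, ← Real.exp_add,
              ← Real.exp_add]
            congr 1
            push_cast
            ring
          have h4 : (1 : ℝ) ≤ Real.exp (CO * z) *
              Real.exp (((U : ℝ) - 2 * j * d i) * (z * Real.log 2)) := by
            refine one_le_mul_of_one_le_of_one_le (Real.one_le_exp (by positivity))
              (Real.one_le_exp ?_)
            push_cast at hdi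
            exact mul_nonneg (by linarith) (by positivity)
          push_cast
          nlinarith
        have h5 : η * Real.log (2 * (2 ^ (U * z) * (2 * Real.exp (CN * z)) + 1) + 1) ≤ z := by
          apply hηb
          have h6 : Real.log (2 * (2 ^ (U * z) * (2 * Real.exp (CN * z)) + 1) + 1) ≤
              (7 : ℕ) + CN * z + ((U * z : ℕ) : ℝ) * Real.log 2 := by
            refine log_le_of (by positivity) (by norm_num) ?_
            rw [pow_two_exp]
            have h7 : (1 : ℝ) ≤ Real.exp (CN * z) * Real.exp (((U * z : ℕ) : ℝ) * Real.log 2) := by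
              exact one_le_mul_of_one_le_of_one_le (Real.one_le_exp (by positivity))
                (Real.one_le_exp (by positivity))
            push_cast at h7 ⊢
            nlinarith
          refine h6.trans ?_
          push_cast
          have h8 : (U : ℝ) * z * Real.log 2 ≤ U * z * 1 :=
            mul_le_mul_of_nonneg_left l2' (by positivity)
          have h9 : 0 ≤ C₁ * z := by positivity
          nlinarith
        push_cast at h2
        nlinarith
      · intro ω ω' hω hω' hg hg' e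
        rw [hG] at hg hg'
        have h2 := (hown ω hω hg).1 i
        have h3 := (hown ω' hω' hg').1 i
        rw [hsub] at h2 h3
        rw [hth]
        refine floor_near hUz.le ?_
        rw [two_mul]
        refine (abs_sub _ _).trans (add_le_add ?_ ?_)
        · rw [hr]; exact h2
        · rw [hr]; exact h3
      · intro ω ω' hω hω'
        have h2 := (hnat (D.cs (k + 3 * j) ω) _ _ (hpT ω hω) (hpT ω hω)).1 i
        have h3 := (hnat (D.cs (k + 3 * j) ω') _ _ (hpT ω' hω') (hpT ω' hω')).1 i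
        rw [hth]
        refine floor_near hUz.le ?_
        rw [two_mul]
        exact (abs_sub _ _).trans (add_le_add h2 h3)
    have s6 : ∀ i : Fin n, CH q (fun ω => (D.bd z U (k + j) ω : Fin n → ℤ) i)
        (fun ω => (th ω, (G ω, S ω))) ≤ (CN + 5) * z := by
      intro i
      have h1 := CH_le_int hqn hq.sum_one (fun ω => (D.bd z U (k + j) ω : Fin n → ℤ) i)
        (fun ω => (th ω, (G ω, S ω))) (fun _ => Real.exp (CN * z) + 1) ?_
      · rw [Ex_const hq.sum_one] at h1
        refine h1.trans ?_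
        have h2 : Real.log (2 * (Real.exp (CN * z) + 1) + 1) ≤ (5 : ℕ) + CN * z + 0 := by
          refine log_le_of (by positivity) (by norm_num) ?_
          have h4 : (1 : ℝ) ≤ Real.exp (CN * z) := Real.one_le_exp (by positivity)
          rw [Real.exp_zero]
          push_cast
          linarith
        push_cast at h2
        nlinarith
      · intro ω ω' hω hω' e
        have e1 := Prod.ext_iff.mp e
        have e2 := (Prod.ext_iff.mp e1.2).2
        simp only [hS] at e2
        have e4 := hcs ω ω' hω hω' e2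
        have h2 := (((hnat (D.cs (k + 3 * j) ω) _ _ (hpT ω hω) (hpT ω' hω')).2
          (1 / 2 ^ (U * z))).2 ?_) i
        · refine (floor_near hUz.le h2).trans (le_of_eq ?_)
          field_simp
        · intro l
          have e5 := congrFun e1.1 l
          simp only [hth] at e5
          rw [← e4] at e5
          exact cell_near hUz e5
    have t1 : ∑ i : Fin n, CH q (fun ω => th ω i) (fun ω => (G ω, S ω)) ≤
        ∑ i ∈ range n, ((U : ℝ) - 2 * j * d i) * (z * Real.log 2) + n * ((CO + 8) * z) := by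
      refine (Finset.sum_le_sum fun i _ => s5 i).trans (le_of_eq ?_)
      rw [Finset.sum_add_distrib, Finset.sum_const, Finset.card_univ, Fintype.card_fin,
        nsmul_eq_mul, Fin.sum_univ_eq_sum_range
          (fun i => ((U : ℝ) - 2 * j * d i) * (z * Real.log 2)) n]
    have t2 : ∑ i : Fin n, CH q (fun ω => (D.bd z U (k + j) ω : Fin n → ℤ) i)
        (fun ω => (th ω, (G ω, S ω))) ≤ n * ((CN + 5) * z) := by
      refine (Finset.sum_le_sum fun i _ => s6 i).trans (le_of_eq ?_)
      rw [Finset.sum_const, Finset.card_univ, Fintype.card_fin, nsmul_eq_mul]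
    rw [← hS]
    have t3 : (1 : ℝ) ≤ (CO + CN + 12) * z := by nlinarith
    nlinarith
  · -- the height
    intro P hPU hPd
    have s1 := ch_ev hq (fun ω => ⌊(2 : ℝ) ^ P * D.pN d z (k + j) n ω⌋)
      (fun ω => (S ω, (D.bd z U (k + j) ω : Fin n → ℤ))) G
    have hP : (0 : ℝ) < 2 ^ P := by positivity
    have hPU2 : (2 : ℝ) ^ P ≤ 2 ^ (U * z) := pow_le_pow_right₀ (by norm_num) hPU
    have hPd2 : (2 : ℝ) ^ P ≤ 2 ^ (d n * (2 * j * z)) := pow_le_pow_right₀ (by norm_num) hPd
    obtain ⟨r, hr⟩ : ∃ r : ℝ, r = Real.exp (CO * z) / 2 ^ (d n * (2 * j * z)) := ⟨_, rfl⟩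
    have h1 := ch_int hq (fun ω => ⌊(2 : ℝ) ^ P * D.pN d z (k + j) n ω⌋)
      (fun ω => (S ω, (D.bd z U (k + j) ω : Fin n → ℤ))) G
      (a := 2 * Real.exp (CO * z) + Real.exp (CN * z) + 1)
      (b := 2 ^ (U * z) * (2 * Real.exp (C₁ * z)) + 1) (η := η) (by positivity)
      (by positivity) hbG ?_ ?_
    · have h2 : Real.log (2 * (2 * Real.exp (CO * z) + Real.exp (CN * z) + 1) + 1) ≤
          (9 : ℕ) + CO * z + CN * z := by
        refine log_le_of (by positivity) (by norm_num) ?_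
        have h4 : (1 : ℝ) ≤ Real.exp (CO * z) := Real.one_le_exp (by positivity)
        have h5 : (1 : ℝ) ≤ Real.exp (CN * z) := Real.one_le_exp (by positivity)
        push_cast
        nlinarith
      have h5 : η * Real.log (2 * (2 ^ (U * z) * (2 * Real.exp (C₁ * z)) + 1) + 1) ≤ z := by
        apply hηb
        have h6 : Real.log (2 * (2 ^ (U * z) * (2 * Real.exp (C₁ * z)) + 1) + 1) ≤
            (7 : ℕ) + C₁ * z + ((U * z : ℕ) : ℝ) * Real.log 2 := by
          refine log_le_of (by positivity) (by norm_num) ?_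
          rw [pow_two_exp]
          have h7 : (1 : ℝ) ≤ Real.exp (C₁ * z) * Real.exp (((U * z : ℕ) : ℝ) * Real.log 2) := by
            exact one_le_mul_of_one_le_of_one_le (Real.one_le_exp (by positivity))
              (Real.one_le_exp (by positivity))
          push_cast at h7 ⊢
          nlinarith
        refine h6.trans ?_
        push_cast
        have h8 : (U : ℝ) * z * Real.log 2 ≤ U * z * 1 :=
          mul_le_mul_of_nonneg_left l2' (by positivity)
        have h9 : 0 ≤ CN * z := by positivity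
        nlinarith
      rw [← hS]
      push_cast at h2
      have t3 : (0 : ℝ) ≤ n * (CO + CN + 13) * z := by positivity
      nlinarith
    · intro ω ω' hω hω' hg hg' e
      rw [hG] at hg hg'
      have e1 := Prod.ext_iff.mp e
      have e2 := e1.1
      simp only [hS] at e2
      have e4 := hcs ω ω' hω hω' e2
      have h2 := (hown ω hω hg).2
      have h3 := (hown ω' hω' hg').2
      rw [hsub, ← hr] at h2 h3
      have h4 := (((hnat (D.cs (k + 3 * j) ω) _ _ (hpT ω hω) (hpT ω' hω')).2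
        (1 / 2 ^ (U * z))).1 fun l => cell_near hUz (congrFun e1.2 l)).2
      rw [← e4] at h3
      have h5 : |D.pN d z (k + j) n ω - D.pN d z (k + j) n ω'| ≤
          r + r + Real.exp (CN * z) * (1 / 2 ^ (U * z)) := by
        have h6 : D.pN d z (k + j) n ω - D.pN d z (k + j) n ω' =
            (D.pN d z (k + j) n ω - D.shN K d z C₁ C₂ (k + j) (k + 3 * j)
              (D.cs (k + 3 * j) ω) (D.pT (k + j) ω : Fin n → ℝ)) -
            (D.pN d z (k + j) n ω' - D.shN K d z C₁ C₂ (k + j) (k + 3 * j)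
              (D.cs (k + 3 * j) ω) (D.pT (k + j) ω' : Fin n → ℝ)) +
            (D.shN K d z C₁ C₂ (k + j) (k + 3 * j) (D.cs (k + 3 * j) ω)
              (D.pT (k + j) ω : Fin n → ℝ) - D.shN K d z C₁ C₂ (k + j) (k + 3 * j)
              (D.cs (k + 3 * j) ω) (D.pT (k + j) ω' : Fin n → ℝ)) := by ring
        rw [h6]
        refine (abs_add_le _ _).trans (add_le_add ?_ h4)
        exact (abs_sub _ _).trans (add_le_add h2 h3)
      refine (floor_near hP.le h5).trans ?_
      have h6 : (2 : ℝ) ^ P * r ≤ Real.exp (CO * z) := by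
        rw [hr, mul_div_assoc', div_le_iff₀ (by positivity), mul_comm]
        exact mul_le_mul_of_nonneg_left hPd2 (Real.exp_pos _).le
      have h7 : (2 : ℝ) ^ P * (Real.exp (CN * z) * (1 / 2 ^ (U * z))) ≤ Real.exp (CN * z) := by
        calc (2 : ℝ) ^ P * (Real.exp (CN * z) * (1 / 2 ^ (U * z)))
            ≤ 2 ^ (U * z) * (Real.exp (CN * z) * (1 / 2 ^ (U * z))) :=
              mul_le_mul_of_nonneg_right hPU2 (by positivity)
          _ = Real.exp (CN * z) := by field_simp
      nlinarith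
    · intro ω ω' hω hω'
      have h2 := pN_le hok (v := k + j) (by omega) hω (by linarith)
      have h3 := pN_le hok (v := k + j) (by omega) hω' (by linarith)
      refine (floor_near hP.le (B := 2 * Real.exp (C₁ * z)) ?_).trans ?_
      · rw [two_mul]
        exact (abs_sub _ _).trans (add_le_add h2 h3)
      · have := mul_le_mul_of_nonneg_right hPU2 (by positivity : 0 ≤ 2 * Real.exp (C₁ * z))
        linarith

end Pool.STAT
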