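import Pool.Agent.H19.STAT.Tools
import Pool.Agent.H80.BFL.REM
import Pool.Agent.H39.BFL.Prob

/-!
# Window-free tubes, layer 2: typical lines are bounded on the whole window (row 112)

The adapted coordinates of the line at the time `t` are polynomials in `t`. They are small at the
times of the typical samples, by the ladder, and so they are small on the whole window, by the
lemma of Remez.
-/

set_option autoImplicit false

namespace Pool.STAT

open Finset MvPolynomial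
open Pool.Agent.H49.Ent Pool.Agent.H32.Dense Pool.STK Pool.KS3
open Pool.BFL (Pl CB Pb P2 MC alt)

namespace Jtw12

theorem atT_tri {t : ℝ} {Φ : ℕ → PN} (h : TriN Φ) : TriN (atT t Φ) := by
  intro i
  unfold atT
  by_cases hi : i = 0
  · subst hi
    rw [Function.update_self]
    simp
  · rw [Function.update_of_ne hi]
    exact h i

theorem atT_deg {t : ℝ} {Φ : ℕ → PN} {K i : ℕ} (h : (Φ i).totalDegree ≤ K) :
    (atT t Φ i).totalDegree ≤ K := by
  unfold atT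
  by_cases hi : i = 0
  · subst hi
    rw [Function.update_self]
    simp
  · rw [Function.update_of_ne hi]
    exact h

/-- The ladder of a sample has a base. -/
theorem lbase {D : NDat} {n K J z M : ℕ} {σ : ℕ → ℝ} {κ C₁ : ℝ} {q : D.Ω → ℝ}
    (hD : D.Ok n K J z M σ κ C₁ q) {ω : D.Ω} (hω : 0 < q ω) :
    LBase K (n + 1) (M + 1) (D.Φs M ω) := by
  refine ⟨?_, ?_, ?_, ?_⟩
  · intro k _ i _
    unfold NDat.Φs
    split_ifs
    · exact hD.P_deg k _ i
    · exact atT_deg (hD.R_deg _ i)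
  · intro k _
    unfold NDat.Φs
    split_ifs
    · exact hD.P_tri k _
    · exact atT_tri (hD.R_tri _)
  · intro i hi _
    unfold NDat.Φs
    rw [if_pos (Nat.zero_le M)]
    exact hD.P_zero _ i hi
  · have h1 := const_of_vars (hD.P_tri 0 (D.c 0 ω) 0)
    refine ⟨(D.P 0 (D.c 0 ω) 0).coeff 0, ?_, ?_⟩
    · have h2 := hD.hgt 0 (Nat.zero_le M) ω hω 0 (Nat.zero_le n)
      unfold NDat.rh at h2
      rw [h1, eval_C, hD.X_zero ω] at h2
      have h3 : (1 : ℝ) / 2 ^ D.g 0 0 ≤ 1 := by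
        rw [div_le_one (by positivity)]
        exact one_le_pow₀ (by norm_num)
      have h4 : (0 : ℝ) ≤ (D.T ω : ℝ) / 2 ^ J := by positivity
      have h5 : (D.T ω : ℝ) / 2 ^ J ≤ 1 := by
        rw [div_le_one (by positivity)]
        exact_mod_cast (hD.T_lt ω).le
      have h6 := abs_le.1 (h2.trans h3)
      rw [abs_le]
      constructor <;> linarith [h6.1, h6.2]
    · unfold NDat.Φs
      rw [if_pos (Nat.zero_le M)]
      exact h1

/-- The finite set of the exponents. -/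
noncomputable def Ex (n K' : ℕ) : Finset (ℕ →₀ ℕ) :=
  (range (n + 1)).finsupp fun _ => range (K' + 1)

theorem mem_Ex {d : ℕ → ℕ} (hd : ∀ i, 1 ≤ d i) {n K' i : ℕ} (hi : i ≤ n) {k : ℕ →₀ ℕ}
    (h1 : k.support ⊆ range (i + 1)) (h2 : Finsupp.weight d k ≤ K') : k ∈ Ex n K' := by
  unfold Ex
  rw [Finset.mem_finsupp_iff]
  refine ⟨h1.trans (range_subset_range.2 (by omega)), fun j _ => ?_⟩
  rw [mem_range]
  by_cases hj : j ∈ k.support
  · rw [Finsupp.weight_apply, Finsupp.sum] at h2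
    have h3 : k j • d j ≤ ∑ l ∈ k.support, k l • d l :=
      Finset.single_le_sum (f := fun l => k l • d l) (fun _ _ => Nat.zero_le _) hj
    have h4 : k j * 1 ≤ k j • d j := Nat.mul_le_mul_left _ (hd j)
    omega
  · rw [Finsupp.notMem_support_iff.1 hj]
    omega

theorem nrm_le {d : ℕ → ℕ} {F : PN} {E : Finset (ℕ →₀ ℕ)} {S : ℝ}
    (hE : ∀ k, F.coeff k ≠ 0 → k ∈ E) (hS : ∀ k ∈ E, |F.coeff k| ≤ S) :
    nrm d 1 F ≤ E.card * S := by
  unfold nrm
  have h1 : F.support ⊆ E := fun k hk => hE k (mem_support_iff.1 hk)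
  calc ∑ k ∈ F.support, |F.coeff k| * 1 ^ Finsupp.weight d k
      = ∑ k ∈ F.support, |F.coeff k| := Finset.sum_congr rfl fun k _ => by rw [one_pow, mul_one]
    _ ≤ ∑ k ∈ E, |F.coeff k| :=
        Finset.sum_le_sum_of_subset_of_nonneg h1 fun _ _ _ => abs_nonneg _
    _ ≤ ∑ _k ∈ E, S := Finset.sum_le_sum hS
    _ = E.card * S := by rw [Finset.sum_const, nsmul_eq_mul]

theorem coeff_le_nrm {d : ℕ → ℕ} (F : PN) (k : ℕ →₀ ℕ) : |F.coeff k| ≤ nrm d 1 F := by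
  by_cases hk : k ∈ F.support
  · unfold nrm
    have h1 := Finset.single_le_sum (f := fun k => |F.coeff k| * (1 : ℝ) ^ Finsupp.weight d k)
      (fun _ _ => by positivity) hk
    simpa using h1
  · rw [notMem_support_iff.1 hk, abs_zero]
    exact nrm_nonneg (by norm_num) F

end Jtw12

open Jtw12 in
/-- **Row 112 JTW.** -/
theorem jtw_of (hJ : JbwStmt) (hL : LadStmt) (hP : PltStmt) : JtwStmt := by
  classical
  intro n K d σ C₁ hn hs hC₁
  obtain ⟨C₂, hC₂, hJ⟩ := hJ n K d σ C₁ hn hs hC₁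
  obtain ⟨C₃, hC₃, hL⟩ := hL n K d σ C₂ hs hC₂
  obtain ⟨K', hP⟩ := hP n K d hs.d_zero hs.d_pos
  obtain ⟨CR, hCR, hR⟩ := Pool.BFL.Rem.rem_thm K'
  refine ⟨C₃ + 2, by linarith, fun M η hη => ?_⟩
  obtain ⟨m, hm⟩ : ∃ m : ℕ, m = (n + 1) * (Ex n K').card := ⟨_, rfl⟩
  obtain ⟨η₁, hη₁⟩ : ∃ η₁ : ℝ, η₁ = min η 1 / (m + 1) := ⟨_, rfl⟩
  have hm0 : (0 : ℝ) ≤ m := Nat.cast_nonneg _
  have hmin : 0 < min η 1 := lt_min hη one_pos
  have h1 : 0 < η₁ := by rw [hη₁]; positivity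
  have h2 : η₁ ≤ 1 := by
    rw [hη₁, div_le_one (by positivity)]
    linarith [min_le_right η (1 : ℝ)]
  have h3 : m * η₁ ≤ η := by
    rw [hη₁, mul_div_assoc', div_le_iff₀ (by positivity)]
    nlinarith [min_le_left η (1 : ℝ)]
  obtain ⟨κ₀, hκ₀, z₀, hJ⟩ := hJ M (η₁ / 4) (by positivity)
  obtain ⟨z₁, hL⟩ := hL (M + 1)
  have hCR0 : 0 < CR := by linarith
  refine ⟨min κ₀ (η₁ / (4 * CR)), lt_min hκ₀ (by positivity),
    max (max z₀ z₁) (max ⌈4 * CR / η₁⌉₊ (Ex n K').card), ?_⟩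
  intro J z κ D q hz hκ hD
  have hz0 : z₀ ≤ z := (le_max_left _ _).trans ((le_max_left _ _).trans hz)
  have hz1 : z₁ ≤ z := (le_max_right _ _).trans ((le_max_left _ _).trans hz)
  have hz2 : 4 * CR / η₁ ≤ z :=
    (Nat.le_ceil _).trans (by exact_mod_cast (le_max_left _ _).trans ((le_max_right _ _).trans hz))
  have hz3 : (Ex n K').card ≤ z := (le_max_right _ _).trans ((le_max_right _ _).trans hz)
  have hκ1 : κ ≤ η₁ / (4 * CR) := hκ.trans (min_le_right _ _)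
  have hb := hJ J z κ D q hz0 (hκ.trans (min_le_left _ _)) hD
  have hq0 : ∀ ω, 0 ≤ q ω := hD.isLaw.nonneg
  have hzR : (0 : ℝ) ≤ z := Nat.cast_nonneg _
  -- the polynomials
  have hPl : ∀ l : D.Λ, ∀ i ≤ n, ∀ k : ℕ →₀ ℕ,
      (∃ p : Polynomial ℝ, p.natDegree ≤ K' ∧
        ∀ t, p.eval t = (adp d (atT t (D.R l)) i).coeff k) ∧
      ((∃ t, (adp d (atT t (D.R l)) i).coeff k ≠ 0) → k.support ⊆ range (i + 1) ∧
        Finsupp.weight d k ≤ K') := fun l =>
    hP (D.R l) (atT_tri (hD.R_tri l)) fun i _ => atT_deg (hD.R_deg l i)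
  have hch : ∀ l : D.Λ, ∀ i : Fin (n + 1), ∀ k : ℕ →₀ ℕ, ∃ p : Polynomial ℝ,
      p.natDegree ≤ K' ∧ ∀ t, p.eval t = (adp d (atT t (D.R l)) i).coeff k := fun l i k =>
    (hPl l i (by omega) k).1
  choose p hp1 hp2 using hch
  -- the threshold
  obtain ⟨θ, hθ⟩ : ∃ θ : ℝ, θ = η₁ / (4 * CR) * z := ⟨_, rfl⟩
  have hθ0 : 0 ≤ θ := by rw [hθ]; positivity
  have hθ1 : CR * (θ + 1) / η₁ ≤ z / 2 := by
    rw [div_le_iff₀ h1, hθ]
    have h4 : 4 * CR ≤ z * η₁ := by rwa [div_le_iff₀ h1] at hz2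
    have h5 : CR * (η₁ / (4 * CR) * z + 1) = η₁ * z / 4 + CR := by
      field_simp
    rw [h5]
    linarith
  have hlog : Real.log ((2 ^ J : ℕ) : ℝ) = J * Real.log 2 := by
    push_cast
    rw [Real.log_pow]
  have hJz : (z : ℝ) ≤ J := by
    have h4 : z ≤ (M + 1) * z := Nat.le_mul_of_pos_left _ (by omega)
    exact_mod_cast h4.trans hD.top
  have hl2 := Real.log_two_gt_d9
  have hθ2 : CR * (θ + 1) / η₁ ≤ Real.log ((2 ^ J : ℕ) : ℝ) := by
    rw [hlog]
    nlinarith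
  -- the bound of one coefficient
  have hone : ∀ x : Fin (n + 1) × (Ex n K' : Finset (ℕ →₀ ℕ)),
      Pb q (fun ω => ¬ ∀ t ∈ Set.Icc (0 : ℝ) 1, |(p (D.ln ω) x.1 x.2).eval t| ≤
        Real.exp (CR * (θ + 1) / η₁) * Real.exp (C₃ * z)) ≤ η₁ := by
    intro x
    refine hR D.Ω D.Λ q (2 ^ J) D.T D.ln (fun l => p l x.1 x.2)
      (fun ω => 0 < q ω ∧ D.JG d z σ C₂ M n ω) (fun _ => Real.exp (C₃ * z)) θ η₁ hD.isLaw
      hD.T_lt (fun l => hp1 l x.1 x.2) hθ0 h1 h2 ?_ ?_ (fun _ => Real.exp_pos _) hθ2 ?_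
    · rw [hlog]
      have h4 : κ * z ≤ θ := by rw [hθ]; exact mul_le_mul_of_nonneg_right hκ1 hzR
      linarith [hD.time]
    · refine (Pool.Agent.H39.BFL.Pb_mono hq0 fun ω hω h4 h5 => h4 ⟨hω, h5⟩).trans hb
    · rintro ω ⟨hω, hg⟩
      have h4 := (hL z (D.Φs M ω) (n + 1) hz1 le_rfl (lbase hD hω) hg).1 (M + 1) le_rfl x.1
        x.1.2
      have h5 : D.Φs M ω (M + 1) = atT (D.X ω 0) (D.R (D.ln ω)) := by
        unfold NDat.Φs
        rw [if_neg (by omega)]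
        rfl
      rw [h5] at h4
      show |(p (D.ln ω) x.1 x.2).eval ((D.T ω : ℝ) / ((2 ^ J : ℕ) : ℝ))| ≤ _
      rw [hp2]
      have h6 : (D.T ω : ℝ) / ((2 ^ J : ℕ) : ℝ) = D.X ω 0 := by
        rw [hD.X_zero ω]
        push_cast
        rfl
      rw [h6]
      exact (coeff_le_nrm _ _).trans h4.1
  have hall := Pool.Agent.H39.BFL.Pb_ex hq0 (ι := Fin (n + 1) × (Ex n K' : Finset (ℕ →₀ ℕ)))
    (fun x ω => ¬ ∀ t ∈ Set.Icc (0 : ℝ) 1,
      |(p (D.ln ω) x.1 x.2).eval t| ≤ Real.exp (CR * (θ + 1) / η₁) * Real.exp (C₃ * z)) η₁ hone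
  rw [Fintype.card_prod, Fintype.card_fin, Fintype.card_coe, ← hm] at hall
  refine (Pool.Agent.H39.BFL.Pb_mono hq0 ?_).trans (hall.trans h3)
  intro ω _ hω
  by_contra hno
  apply hω
  push Not at hno
  intro t ht i hi
  have h4 : nrm d 1 (adp d (atT t (D.R (D.ln ω))) i) ≤
      (Ex n K').card * (Real.exp (CR * (θ + 1) / η₁) * Real.exp (C₃ * z)) := by
    refine nrm_le (fun k hk => ?_) fun k hk => ?_
    · have h5 := (hPl (D.ln ω) i hi k).2 ⟨t, hk⟩
      exact mem_Ex hs.d_pos hi h5.1 h5.2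
    · have h5 := hno ⟨⟨i, by omega⟩, ⟨k, hk⟩⟩ t ht
      rw [hp2] at h5
      exact h5
  refine h4.trans ?_
  have h5 : ((Ex n K').card : ℝ) ≤ Real.exp z := by
    have h6 : ((Ex n K').card : ℝ) ≤ z := by exact_mod_cast hz3
    linarith [Real.add_one_le_exp (z : ℝ)]
  calc ((Ex n K').card : ℝ) * (Real.exp (CR * (θ + 1) / η₁) * Real.exp (C₃ * z))
      ≤ Real.exp z * (Real.exp z * Real.exp (C₃ * z)) := by
        refine mul_le_mul h5 ?_ (by positivity) (Real.exp_pos _).le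
        refine mul_le_mul_of_nonneg_right ?_ (Real.exp_pos _).le
        exact Real.exp_le_exp.2 (by linarith)
    _ = Real.exp ((C₃ + 2) * z) := by
        rw [← Real.exp_add, ← Real.exp_add]
        congr 1
        ring

end Pool.STAT
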