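import Pool.Agent.H12.STAT.N5S

/-!
# The static part: a new label, from the digits of the height

The same theorem as `sta_abs`, with the conclusion of row (B) as hypothesis: the natural digits of
the height of level `v`, given the label of level `v` and the natural digits of the base, are not
full, on all large events. No hypothesis on the source of this bound.
-/

set_option autoImplicit false

namespace Pool.STAT

open Finset MvPolynomial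
open Pool.Agent.H49.Ent Pool.Agent.H32.Dense Pool.STK Pool.KS3 Pool.K2S
open Pool.BFL (Pl CB Pb P2 MC alt floor_coarse)

/-- The natural digits of the height of level `v` are not full, given the label of level `v` and
the natural digits of the base to `U` levels. -/
def NDat.RatN (D : NDat) (n z U : ℕ) (a C ρ : ℝ) (v : ℕ) (q : D.Ω → ℝ) : Prop :=
  ∀ P : ℕ, (P : ℝ) ≤ ρ * (U * z) →
    CH q (fun ω => ⌊(2 : ℝ) ^ (D.g v n + P) * D.rh v ω n⌋)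
      (fun ω => (D.c v ω, (D.bd z U v ω : Fin n → ℤ))) ≤ (1 - a) * (P * Real.log 2) + C * z

/-- The natural coordinates in the units of the window. -/
theorem pT_nrmd {D : NDat} {n K J w₀ z M : ℕ} {σ : ℕ → ℝ} {κ C₁ : ℝ} {q : D.Ω → ℝ}
    (h : D.Ok0 n K J w₀ z M σ κ C₁ q) (φ : D.Λ → D.Γ) (ψ : D.Λ → ℕ) {v : ℕ} (hv : v ≤ M)
    (ω : D.Ω) (i : Fin n) :
    (D.nrmd n J w₀ φ ψ).pT v ω i = D.pT v ω i := by
  unfold NDat.pT
  rw [NDat.rh_nrmd h φ ψ v ω i.2.le, ← mul_assoc]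
  congr 1
  change (2 : ℝ) ^ (D.g v i - D.g 0 i) * _ = _
  rw [← pow_add]
  congr 1
  have := h.g_ge v hv i
  omega

/-- The height in the units of the window. -/
theorem pN_nrmd {D : NDat} {n K J w₀ z M : ℕ} {σ : ℕ → ℝ} {κ C₁ : ℝ} {q : D.Ω → ℝ}
    (h : D.Ok0 n K J w₀ z M σ κ C₁ q) (φ : D.Λ → D.Γ) (ψ : D.Λ → ℕ) (d : ℕ → ℕ) (v : ℕ)
    (ω : D.Ω) :
    (D.nrmd n J w₀ φ ψ).pN d z v n ω = (2 : ℝ) ^ (d n * (v * z) + D.g 0 n) * D.rh v ω n := by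
  unfold NDat.pN
  rw [NDat.rh_nrmd h φ ψ v ω le_rfl, ← mul_assoc, ← pow_add]

/-- The digits of the height in the units of the window. -/
theorem rat_nrmd {D : NDat} {n K J w₀ z M U : ℕ} {σ : ℕ → ℝ} {κ C₁ C₃ a ρ : ℝ} {q : D.Ω → ℝ}
    (h : D.Ok0 n K J w₀ z M σ κ C₁ q) (hz : 1 ≤ z) (hC₁ : 1 ≤ C₁) (ha0 : 0 ≤ a) (ha1 : a ≤ 1)
    (hρ : 0 ≤ ρ) (φ : D.Λ → D.Γ) (ψ : D.Λ → ℕ) (d : ℕ → ℕ) (hd : (d n : ℝ) = σ n) {v : ℕ}
    (hv : v ≤ M) (hR : D.RatN n z U a C₃ ρ v q) (P : ℕ) (hP : (P : ℝ) ≤ (ρ * U + 1) * z) :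
    CH q (fun ω => ⌊(2 : ℝ) ^ P * (D.nrmd n J w₀ φ ψ).pN d z v n ω⌋)
      (fun ω => ((D.nrmd n J w₀ φ ψ).c v ω,
        fun i : Fin n => ⌊(2 : ℝ) ^ (U * z) * (D.nrmd n J w₀ φ ψ).pT v ω i⌋)) ≤
      (1 - a) * P * Real.log 2 + (C₃ + 2 * C₁ + 2) * z := by
  have hq := h.isLaw
  have hzR : (1 : ℝ) ≤ z := by exact_mod_cast hz
  have hl : Real.log 2 ≤ 1 := by
    have := Real.log_two_lt_d9
    linarith
  have hl0 : 0 < Real.log 2 := Real.log_pos one_lt_two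
  -- the conditions
  have h1 : CH q (fun ω => ⌊(2 : ℝ) ^ P * (D.nrmd n J w₀ φ ψ).pN d z v n ω⌋)
      (fun ω => ((D.nrmd n J w₀ φ ψ).c v ω,
        fun i : Fin n => ⌊(2 : ℝ) ^ (U * z) * (D.nrmd n J w₀ φ ψ).pT v ω i⌋)) ≤
      CH q (fun ω => ⌊(2 : ℝ) ^ P * (D.nrmd n J w₀ φ ψ).pN d z v n ω⌋)
        (fun ω => (D.c v ω, (D.bd z U v ω : Fin n → ℤ))) := by
    refine CH_mono_cond hq.nonneg fun ω ω' _ _ e => ?_
    have e1 : (D.nrmd n J w₀ φ ψ).c v ω = (D.nrmd n J w₀ φ ψ).c v ω' := congrArg Prod.fst e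
    have e2 := congrArg Prod.snd e
    have e1' : D.c v ω = D.c v ω' := congrArg (fun x : D.Γ × D.Γ × ℕ => x.1) e1
    refine Prod.ext e1' ?_
    funext i
    have e3 : ⌊(2 : ℝ) ^ (U * z) * (D.nrmd n J w₀ φ ψ).pT v ω i⌋ =
      ⌊(2 : ℝ) ^ (U * z) * (D.nrmd n J w₀ φ ψ).pT v ω' i⌋ := congrFun e2 i
    rw [pT_nrmd h φ ψ hv, pT_nrmd h φ ψ hv] at e3
    exact e3
  refine h1.trans ?_
  have e0 : (fun ω : D.Ω => ⌊(2 : ℝ) ^ P * (D.nrmd n J w₀ φ ψ).pN d z v n ω⌋) =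
      fun ω => ⌊(2 : ℝ) ^ (P + d n * (v * z) + D.g 0 n) * D.rh v ω n⌋ := by
    funext ω
    rw [pN_nrmd h φ ψ d v ω, ← mul_assoc, ← pow_add, ← add_assoc]
  have e0' : CH q (fun ω : D.Ω => ⌊(2 : ℝ) ^ P * (D.nrmd n J w₀ φ ψ).pN d z v n ω⌋)
      (fun ω => (D.c v ω, (D.bd z U v ω : Fin n → ℤ))) =
      CH q (fun ω => ⌊(2 : ℝ) ^ (P + d n * (v * z) + D.g 0 n) * D.rh v ω n⌋)
        (fun ω => (D.c v ω, (D.bd z U v ω : Fin n → ℤ))) := by rw [e0]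
  refine e0'.le.trans ?_
  have hg := h.g_ge v hv n
  obtain ⟨e, he⟩ : ∃ e : ℕ, D.g v n = D.g 0 n + e := Nat.exists_eq_add_of_le hg
  have hhom := h.hom v hv n le_rfl
  rw [he, ← hd] at hhom
  push_cast at hhom
  have hhom' : |(e : ℝ) - d n * (v * z)| ≤ C₁ * z := by
    have : ((D.g 0 n : ℝ) + e - D.g 0 n - d n * (v * z)) = (e : ℝ) - d n * (v * z) := by ring
    rwa [this] at hhom
  have hh := abs_le.1 hhom'
  rcases le_total e (P + d n * (v * z)) with hcase | hcase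
  · obtain ⟨P', hP'⟩ := Nat.exists_eq_add_of_le hcase
    have e1 : P + d n * (v * z) + D.g 0 n = D.g v n + P' := by omega
    rw [e1]
    have hP'R : (P' : ℝ) = P + d n * (v * z) - e := by
      have : ((P + d n * (v * z) : ℕ) : ℝ) = ((e + P' : ℕ) : ℝ) := by rw [hP']
      push_cast at this
      linarith
    have hP'le : (P' : ℝ) ≤ P + C₁ * z := by
      rw [hP'R]
      linarith
    obtain ⟨P₀, hP₀⟩ : ∃ P₀ : ℕ, P₀ = ⌊ρ * (U * z)⌋₊ := ⟨_, rfl⟩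
    have hu0 : 0 ≤ ρ * ((U : ℝ) * z) := by positivity
    have hP₀1 : (P₀ : ℝ) ≤ ρ * (U * z) := by
      rw [hP₀]
      exact Nat.floor_le hu0
    have hP₀2 : ρ * (U * z) < P₀ + 1 := by
      rw [hP₀]
      exact Nat.lt_floor_add_one _
    have h1a : 0 ≤ 1 - a := by linarith
    have hC0 : 0 ≤ C₁ * z := by positivity
    have key : ∀ Q : ℕ, (Q : ℝ) ≤ P + C₁ * z →
        (1 - a) * (Q * Real.log 2) ≤ (1 - a) * P * Real.log 2 + C₁ * z := by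
      intro Q hQ
      have h2 : (1 - a) * (Q * Real.log 2) ≤ (1 - a) * ((P + C₁ * z) * Real.log 2) :=
        mul_le_mul_of_nonneg_left (mul_le_mul_of_nonneg_right hQ hl0.le) h1a
      have h3 : (1 - a) * (C₁ * z * Real.log 2) ≤ 1 * (C₁ * z * 1) :=
        mul_le_mul (by linarith) (mul_le_mul_of_nonneg_left hl hC0) (by positivity) zero_le_one
      nlinarith
    rcases le_total P' P₀ with h2 | h2
    · have h3 : (P' : ℝ) ≤ P₀ := by exact_mod_cast h2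
      refine (hR P' (h3.trans hP₀1)).trans ?_
      have h4 := key P' hP'le
      nlinarith
    · obtain ⟨j, rfl⟩ := Nat.exists_eq_add_of_le h2
      have h3 := hR P₀ hP₀1
      have h4 := ch_more hq (fun ω => D.rh v ω n)
        (fun ω => (D.c v ω, (D.bd z U v ω : Fin n → ℤ))) (D.g v n + P₀) j
      rw [add_assoc] at h4
      push_cast at hP'le
      have h5 := key P₀ (by
        have : (0 : ℝ) ≤ j := Nat.cast_nonneg j
        linarith)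
      have h6 : (j : ℝ) ≤ z + C₁ * z + 1 := by nlinarith
      have h7 : (j : ℝ) * Real.log 2 ≤ z + C₁ * z + 1 := by
        have h8 : (j : ℝ) * Real.log 2 ≤ j * 1 := mul_le_mul_of_nonneg_left hl (Nat.cast_nonneg j)
        linarith
      nlinarith
  · -- coarse digits
    have h2 : CH q (fun ω => ⌊(2 : ℝ) ^ (P + d n * (v * z) + D.g 0 n) * D.rh v ω n⌋)
        (fun ω => (D.c v ω, (D.bd z U v ω : Fin n → ℤ))) ≤
        CH q (fun ω => ⌊(2 : ℝ) ^ (D.g v n + 0) * D.rh v ω n⌋)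
        (fun ω => (D.c v ω, (D.bd z U v ω : Fin n → ℤ))) := by
      refine CH_mono_left hq.nonneg fun ω ω' _ _ e => ?_
      have hle : P + d n * (v * z) + D.g 0 n ≤ D.g v n + 0 := by omega
      change ⌊_⌋ = ⌊_⌋
      rw [floor_coarse hle, floor_coarse hle (D.rh v ω' n)]
      rw [show ⌊(2 : ℝ) ^ (D.g v n + 0) * D.rh v ω n⌋ = ⌊(2 : ℝ) ^ (D.g v n + 0) * D.rh v ω' n⌋
        from congrArg Prod.fst e]
    have h3 := hR 0 (by push_cast; positivity)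
    refine h2.trans (h3.trans ?_)
    have h4 : 0 ≤ (1 - a) * P * Real.log 2 :=
      mul_nonneg (mul_nonneg (by linarith) (Nat.cast_nonneg P)) hl0.le
    push_cast
    nlinarith

/-- **The static theorem in absolute units**, with the digits of the height, for the slopes `σ`
with the constants `c`. -/
def StaR (n K A : ℕ) (C₁ C₃ ρ a : ℝ) (c : StaC) (σ : ℕ → ℝ) : Prop :=
  ∀ κ₂ : ℝ, 0 < κ₂ → ∃ z₀ : ℕ,
    ∀ (J w₀ z : ℕ) (D : NDat) (p : D.Ω → ℝ) (A₀ : D.Ω → Prop), z₀ ≤ z → IsLaw p → 0 < Pe p A₀ →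
      (∀ B : D.Ω → Prop, (∀ ω, B ω → A₀ ω) → Real.exp (-(κ₂ * z)) * Pe p A₀ ≤ Pe p B →
        D.Ok0 n K J w₀ z c.M σ c.κ C₁ (Pool.Agent.H49.Ent.cond p B True)) →
      ((∀ i ≤ n, (⌈σ i⌉₊ : ℝ) = σ i) →
        ∀ B : D.Ω → Prop, (∀ ω, B ω → A₀ ω) → Real.exp (-(κ₂ * z)) * Pe p A₀ ≤ Pe p B →
        ∀ k, k + 3 * c.U ≤ c.M →
          D.RatN n z c.U a C₃ ρ (k + c.U) (Pool.Agent.H49.Ent.cond p B True)) →
      ∃ B : D.Ω → Prop, (∀ ω, B ω → A₀ ω) ∧ Real.exp (-(κ₂ * z)) * Pe p A₀ ≤ Pe p B ∧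
        ∃ v v' i, v ≤ v' ∧ v' ≤ c.M ∧ 1 ≤ i ∧ i ≤ n ∧
          D.NewLab0 J w₀ z i v v' A c.K' c.C₆ c.η' (Pool.Agent.H49.Ent.cond p B True)

/-- **Row N5, system half, from the digits of the height**: one vector of slopes. -/
theorem sta_rat (n K A : ℕ) (σ : ℕ → ℝ) (C₁ C₃ ρ a : ℝ) (hn : 1 ≤ n) (hσ0 : σ 0 = 1)
    (hσ : ∀ i, 1 ≤ σ i) (hC₁ : 1 ≤ C₁) (hC₃ : 1 ≤ C₃) (hρ : 0 < ρ) (hρ1 : ρ ≤ 1) (ha : 0 < a)
    (ha1 : a ≤ 1) : ∃ c : StaC, StaR n K A C₁ C₃ ρ a c σ := by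
  classical
  set d : ℕ → ℕ := fun i => ⌈σ i⌉₊ with hd
  have hd0 : d 0 = 1 := by rw [hd]; simp [hσ0]
  have hd1 : ∀ i, 1 ≤ d i := fun i => by
    have : 0 < d i := Nat.ceil_pos.2 (lt_of_lt_of_le one_pos (hσ i))
    omega
  obtain ⟨U, M, K', C₆, η', κa, za, hU1, hη', hκa, hS⟩ :=
    sta_thm n ((K + 1) ^ (n + 2)) A σ C₁ (C₃ + 2 * C₁ + 2 + 6) a ρ hn hσ0 hσ hC₁
      (by linarith) ha hρ hρ1
  refine ⟨⟨U, M, K + K' * (K + 1), max C₆ 0, η', κa, hU1, le_max_right _ _, hη', hκa⟩,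
    fun κ₂ hκ₂ => ?_⟩
  obtain ⟨zb, hzb⟩ := ucw_thm n (C₃ + 2 * C₁ + 2) U M ρ κ₂ hρ.le hκ₂
  refine ⟨max (max za zb) 1, fun J w₀ z D p A₀ hz hp hA₀ hOk hRat => ?_⟩
  simp only at hOk hRat ⊢
  have hza : za ≤ z := (le_max_left _ _).trans ((le_max_left _ _).trans hz)
  have hzb' : zb ≤ z := (le_max_right _ _).trans ((le_max_left _ _).trans hz)
  have hz1 : 1 ≤ z := (le_max_right _ _).trans hz
  have hexp1 : Real.exp (-(κ₂ * z)) * Pe p A₀ ≤ Pe p A₀ := by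
    have h1 : Real.exp (-(κ₂ * z)) ≤ 1 := by
      rw [Real.exp_le_one_iff]
      have : 0 ≤ κ₂ * (z : ℝ) := mul_nonneg hκ₂.le (Nat.cast_nonneg z)
      linarith
    calc _ ≤ 1 * Pe p A₀ := mul_le_mul_of_nonneg_right h1 hA₀.le
      _ = _ := one_mul _
  -- the label of level 0 and the window as functions of the line
  have hO := hOk A₀ (fun _ h => h) hexp1
  obtain ⟨ω₀, hω₀⟩ : ∃ ω, 0 < Pool.Agent.H49.Ent.cond p A₀ True ω := by
    by_contra hc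
    push Not at hc
    have h1 := hO.isLaw.sum_one
    have h2 : ∑ ω, Pool.Agent.H49.Ent.cond p A₀ True ω ≤ 0 := Finset.sum_nonpos fun ω _ => hc ω
    linarith
  have : Nonempty D.Γ := ⟨D.c 0 ω₀⟩
  have hdet : Det (Pool.Agent.H49.Ent.cond p A₀ True) D.ln (D.c 0) := by
    intro ω ω' hω hω' e
    refine hO.c_wn 0 (Nat.zero_le _) ω ω' hω hω' (Prod.ext e ?_)
    have := hO.ln_w ω ω' hω hω' e
    simpa [NDat.wn] using this
  obtain ⟨φ, hφ⟩ := det_fun hdet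
  obtain ⟨ψ, hψ⟩ := det_fun (T := ℕ) (Y := D.wd J w₀) hO.ln_w
  -- supports
  have hsupp : ∀ B : D.Ω → Prop, (∀ ω, B ω → A₀ ω) → ∀ ω,
      0 < Pool.Agent.H49.Ent.cond p B True ω → 0 < Pool.Agent.H49.Ent.cond p A₀ True ω := by
    intro B hB ω hω
    obtain ⟨h1, h2⟩ := (cond_pos_iff hp.nonneg _ _ ω).1 hω
    exact (cond_pos_iff hp.nonneg _ _ ω).2 ⟨h1, eq_true (hB ω (of_eq_true h2))⟩
  have hOk' : ∀ B : D.Ω → Prop, (∀ ω, B ω → A₀ ω) → Real.exp (-(κ₂ * z)) * Pe p A₀ ≤ Pe p B →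
      (D.nrmd n J w₀ φ ψ).Ok n ((K + 1) ^ (n + 2)) (J - w₀) z M σ κa C₁
        (Pool.Agent.H49.Ent.cond p B True) := fun B hB hBp =>
    NDat.ok_nrmd (hOk B hB hBp) φ ψ (fun ω hω => hφ ω (hsupp B hB ω hω))
      (fun ω hω => hψ ω (hsupp B hB ω hω))
  by_cases hint : ∀ i ≤ n, (d i : ℝ) = σ i
  · obtain ⟨B, hBA, hBp, hCnt⟩ := hzb z (D.nrmd n J w₀ φ ψ) d a p A₀ hzb' hp hA₀ ha.le
      (fun B hB hBp k hk P hP => rat_nrmd (hOk B hB hBp) hz1 hC₁ ha.le ha1 hρ.le φ ψ d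
        (hint n le_rfl) (by omega) (hRat hint B hB hBp k hk) P hP)
    obtain ⟨v, v', i, h1, h2, h3, h4, h5⟩ := hS (J - w₀) z (D.nrmd n J w₀ φ ψ)
      (Pool.Agent.H49.Ent.cond p B True) hza (hOk' B hBA hBp) (fun _ => hCnt)
    exact ⟨B, hBA, hBp, v, v', i, h1, h2, h3, h4,
      (NDat.newlab_nrmd (hOk B hBA hBp) φ ψ h4 h3 h1 h2 h5).mono
        (hOk B hBA hBp).isLaw.nonneg (le_max_left _ _)⟩
  · obtain ⟨v, v', i, h1, h2, h3, h4, h5⟩ := hS (J - w₀) z (D.nrmd n J w₀ φ ψ)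
      (Pool.Agent.H49.Ent.cond p A₀ True) hza (hOk' A₀ (fun _ h => h) hexp1)
      (fun h => absurd h hint)
    exact ⟨A₀, fun _ h => h, hexp1, v, v', i, h1, h2, h3, h4,
      (NDat.newlab_nrmd hO φ ψ h4 h3 h1 h2 h5).mono hO.isLaw.nonneg (le_max_left _ _)⟩

/-- Slopes which are near, and integral only if they are equal: the constants are good. -/
theorem StaR.near {n K A : ℕ} {C₁ C₃ ρ a : ℝ} {c : StaC} {σ σ' : ℕ → ℝ}
    (h : StaR n K A (C₁ + 1) C₃ ρ a c σ) (h0 : σ 0 = 1) (h1 : ∀ i, 1 ≤ σ i)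
    (hs : ∀ i ≤ n, |σ' i - σ i| * c.M ≤ 1)
    (hi : (∀ i ≤ n, (⌈σ i⌉₊ : ℝ) = σ i) → ∀ i ≤ n, σ' i = σ i) :
    StaR n K A C₁ C₃ ρ a c σ' := by
  intro κ₂ hκ₂
  obtain ⟨z₀, hz₀⟩ := h κ₂ hκ₂
  refine ⟨z₀, fun J w₀ z D p A₀ hz hp hA₀ hOk hRat => ?_⟩
  exact hz₀ J w₀ z D p A₀ hz hp hA₀ (fun B hB hBp => (hOk B hB hBp).slope h0 h1 hs)
    (fun hall => hRat fun i hi' => by rw [hi hall i hi']; exact hall i hi')

/-- **Row N5, system half, from the digits of the height**: countably many sets of constants for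
all the slopes. -/
theorem sta_rat_cover (n K A : ℕ) (C₁ C₃ ρ a : ℝ) (hn : 1 ≤ n) (hC₁ : 1 ≤ C₁) (hC₃ : 1 ≤ C₃)
    (hρ : 0 < ρ) (hρ1 : ρ ≤ 1) (ha : 0 < a) (ha1 : a ≤ 1) :
    ∃ (S : ℕ → ℕ → ℝ) (c : ℕ → StaC), (∀ j, S j 0 = 1 ∧ ∀ i, 1 ≤ S j i) ∧
    ∀ σ : ℕ → ℝ, σ 0 = 1 → (∀ i, 1 ≤ σ i) → ∃ j,
      (∀ i ≤ n, |σ i - S j i| * (((c j).M : ℝ) + 1) ≤ 1) ∧
      ((∀ i ≤ n, (⌈S j i⌉₊ : ℝ) = S j i) → ∀ i ≤ n, σ i = S j i) ∧
      StaR n K A C₁ C₃ ρ a (c j) σ := by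
  classical
  have h0 := fun v : {v : Fin (n + 1) → ℝ // v 0 = 1 ∧ ∀ i, 1 ≤ v i} =>
    sta_rat n K A (slp n v.1) (C₁ + 1) C₃ ρ a hn ((slp_of_le v.1 (Nat.zero_le n)).trans v.2.1)
      (slp_ge v.2.2) (by linarith) hC₃ hρ hρ1 ha ha1
  choose c hc using h0
  obtain ⟨I, hI⟩ : ∃ I : Set {v : Fin (n + 1) → ℝ // v 0 = 1 ∧ ∀ i, 1 ≤ v i},
      I = {v | ∀ i ≤ n, (⌈slp n v.1 i⌉₊ : ℝ) = slp n v.1 i} := ⟨_, rfl⟩
  have hIc : I.Countable := by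
    refine Set.MapsTo.countable_of_injOn (t := Set.univ)
      (f := fun v : {v : Fin (n + 1) → ℝ // v 0 = 1 ∧ ∀ i, 1 ≤ v i} =>
        (fun i => ⌈v.1 i⌉₊ : Fin (n + 1) → ℕ)) (fun _ _ => Set.mem_univ _) ?_ Set.countable_univ
    intro v hv w hw hvw
    rw [hI] at hv hw
    apply Subtype.ext
    funext i
    have h1 := hv i.1 (Nat.lt_succ_iff.1 i.2)
    have h2 := hw i.1 (Nat.lt_succ_iff.1 i.2)
    rw [slp_of_le _ (Nat.lt_succ_iff.1 i.2)] at h1 h2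
    have h3 : ⌈v.1 i⌉₊ = ⌈w.1 i⌉₊ := congrFun hvw i
    have h1' : (⌈v.1 i⌉₊ : ℝ) = v.1 i := h1
    have h2' : (⌈w.1 i⌉₊ : ℝ) = w.1 i := h2
    rw [← h1', ← h2', h3]
  obtain ⟨O, hO⟩ : ∃ O : {v : Fin (n + 1) → ℝ // v 0 = 1 ∧ ∀ i, 1 ≤ v i} →
      Set (Fin (n + 1) → ℝ),
      O = fun v => if v ∈ I then ∅ else Metric.ball v.1 (1 / (((c v).M : ℝ) + 1)) := ⟨_, rfl⟩
  obtain ⟨T, hTc, hT⟩ := TopologicalSpace.isOpen_iUnion_countable O (fun v => by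
    rw [hO]
    simp only
    split_ifs
    · exact isOpen_empty
    · exact Metric.isOpen_ball)
  have hmem : ∀ v : {v : Fin (n + 1) → ℝ // v 0 = 1 ∧ ∀ i, 1 ≤ v i}, v ∉ I →
      ∃ r ∈ T, r ∉ I ∧ dist v.1 r.1 < 1 / (((c r).M : ℝ) + 1) := by
    intro v hv
    have h1 : v.1 ∈ ⋃ i, O i := Set.mem_iUnion.2 ⟨v, by
      rw [hO]
      simp only
      rw [if_neg hv]
      exact Metric.mem_ball_self (by positivity)⟩
    rw [← hT] at h1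
    obtain ⟨r, hr, h2⟩ := Set.mem_iUnion₂.1 h1
    rw [hO] at h2
    simp only at h2
    by_cases hrI : r ∈ I
    · rw [if_pos hrI] at h2
      exact absurd h2 (Set.notMem_empty _)
    · rw [if_neg hrI] at h2
      exact ⟨r, hr, hrI, Metric.mem_ball.1 h2⟩
  have hne : (T ∪ I).Nonempty := by
    refine ⟨⟨fun _ => 1, rfl, fun _ => le_rfl⟩, Or.inr ?_⟩
    rw [hI]
    intro i hi
    rw [slp_of_le _ hi]
    simp
  obtain ⟨f, hf⟩ := (hTc.union hIc).exists_eq_range hne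
  have hf0 : ∀ j, slp n (f j).1 0 = 1 := fun j => (slp_of_le _ (Nat.zero_le n)).trans (f j).2.1
  refine ⟨fun j => slp n (f j).1, fun j => c (f j), fun j => ⟨hf0 j, slp_ge (f j).2.2⟩,
    fun σ hσ0 hσ => ?_⟩
  -- the vector of the slopes
  obtain ⟨v, hv⟩ : ∃ v : {v : Fin (n + 1) → ℝ // v 0 = 1 ∧ ∀ i, 1 ≤ v i},
      ∀ i : Fin (n + 1), v.1 i = σ i :=
    ⟨⟨fun i => σ i, hσ0, fun i => hσ i⟩, fun _ => rfl⟩
  have hvs : ∀ i ≤ n, slp n v.1 i = σ i := fun i hi => by rw [slp_of_le _ hi, hv]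
  by_cases hvI : v ∈ I
  · -- integral slopes
    have hr : v ∈ T ∪ I := Or.inr hvI
    rw [hf] at hr
    obtain ⟨j, hj⟩ := hr
    have hj1 : ∀ i ≤ n, slp n (f j).1 i = σ i := fun i hi => by rw [hj, hvs i hi]
    have hz : ∀ i ≤ n, |σ i - slp n (f j).1 i| = 0 := fun i hi => by
      rw [hj1 i hi, sub_self, abs_zero]
    refine ⟨j, fun i hi => ?_, fun _ i hi => (hj1 i hi).symm, (hc (f j)).near (hf0 j)
      (slp_ge (f j).2.2) (fun i hi => ?_) fun _ i hi => (hj1 i hi).symm⟩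
    · simp only
      rw [hz i hi, zero_mul]
      exact zero_le_one
    · rw [hz i hi, zero_mul]
      exact zero_le_one
  · -- other slopes
    obtain ⟨r, hrT, hrI, hdist⟩ := hmem v hvI
    have hr : r ∈ T ∪ I := Or.inl hrT
    rw [hf] at hr
    obtain ⟨j, hj⟩ := hr
    have hd : ∀ i ≤ n, |σ i - slp n (f j).1 i| * (((c (f j)).M : ℝ) + 1) ≤ 1 := by
      intro i hi
      rw [hj]
      have h1 : dist (v.1 ⟨i, Nat.lt_succ_of_le hi⟩) (r.1 ⟨i, Nat.lt_succ_of_le hi⟩) <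
          1 / (((c r).M : ℝ) + 1) := (dist_pi_lt_iff (by positivity)).1 hdist _
      rw [hv, Real.dist_eq, lt_div_iff₀ (by positivity)] at h1
      rw [slp_of_le _ hi]
      exact h1.le
    have hrn : ¬ ∀ i ≤ n, (⌈slp n (f j).1 i⌉₊ : ℝ) = slp n (f j).1 i := by
      rw [hj]
      intro h
      apply hrI
      rw [hI]
      exact h
    refine ⟨j, hd, fun hall => absurd hall hrn, (hc (f j)).near (hf0 j) (slp_ge (f j).2.2)
      (fun i hi => ?_) fun hall => absurd hall hrn⟩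
    refine le_trans ?_ (hd i hi)
    exact mul_le_mul_of_nonneg_left (by linarith) (abs_nonneg _)

end Pool.STAT
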