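import Pool.Agent.H6.STAT.N2
import Pool.Agent.H19.STAT.Abs3
import Pool.Agent.H80.STAT.Sta
import Pool.Agent.H4.STAT.Cov

/-!
# The static part: a new label, in absolute units (row N5, system half)

The axioms `Ok0` on all large events, and for integer slopes the inputs `Row` of the rows of the
height on all large events, give a new label of some coordinate on a large event. Countably many
sets of constants are enough for all the slopes.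
-/

set_option autoImplicit false

namespace Pool.STAT

open Finset MvPolynomial
open Pool.Agent.H49.Ent Pool.Agent.H32.Dense Pool.STK Pool.KS3 Pool.K2S
open Pool.BFL (Pl CB Pb P2 MC alt)

theorem sta_thm : StaStmt := sta_of maiw_thm nonw_thm okr_thm

/-- The constants of the static theorem. -/
structure StaC : Type where
  U : ℕ
  M : ℕ
  K' : ℕ
  C₆ : ℝ
  η' : ℝ
  κ : ℝ
  U_pos : 1 ≤ U
  C₆_nonneg : 0 ≤ C₆
  η'_pos : 0 < η'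
  κ_pos : 0 < κ

/-- **The static theorem in absolute units**, for the slopes `σ` with the constants `c`. -/
def StaG (n K A : ℕ) (C₁ C₂ a : ℝ) (c : StaC) (σ : ℕ → ℝ) : Prop :=
  ∀ κ₂ : ℝ, 0 < κ₂ → ∃ z₀ : ℕ,
    ∀ (J w₀ z : ℕ) (D : NDat) (p : D.Ω → ℝ) (A₀ : D.Ω → Prop) (𝒱 : Type) (Vf : D.Ω → 𝒱)
      (tot : ℝ), z₀ ≤ z → IsLaw p → 0 < Pe p A₀ →
      (∀ B : D.Ω → Prop, (∀ ω, B ω → A₀ ω) → Real.exp (-(κ₂ * z)) * Pe p A₀ ≤ Pe p B →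
        D.Ok0 n K J w₀ z c.M σ c.κ C₁ (Pool.Agent.H49.Ent.cond p B True)) →
      ((∀ i ≤ n, (⌈σ i⌉₊ : ℝ) = σ i) → ∀ (φ : D.Λ → D.Γ) (ψ : D.Λ → ℕ),
        ∀ B : D.Ω → Prop, (∀ ω, B ω → A₀ ω) → Real.exp (-(κ₂ * z)) * Pe p A₀ ≤ Pe p B →
        ∀ k, k + 3 * c.U ≤ c.M → (D.nrmd n J w₀ φ ψ).Row n z c.M c.U (fun i => ⌈σ i⌉₊) a C₂
          Vf tot (k + c.U) (Pool.Agent.H49.Ent.cond p B True)) →
      ∃ B : D.Ω → Prop, (∀ ω, B ω → A₀ ω) ∧ Real.exp (-(κ₂ * z)) * Pe p A₀ ≤ Pe p B ∧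
        ∃ v v' i, v ≤ v' ∧ v' ≤ c.M ∧ 1 ≤ i ∧ i ≤ n ∧
          D.NewLab0 J w₀ z i v v' A c.K' c.C₆ c.η' (Pool.Agent.H49.Ent.cond p B True)

/-- Larger constants for the old label. -/
theorem NDat.NewLab0.mono {D : NDat} {J w₀ z i v v' A K' : ℕ} {C₆ C₆' η' : ℝ} {q : D.Ω → ℝ}
    (hq : ∀ ω, 0 ≤ q ω) (h : D.NewLab0 J w₀ z i v v' A K' C₆ η' q) (hC : C₆ ≤ C₆') :
    D.NewLab0 J w₀ z i v v' A K' C₆' η' q := by
  obtain ⟨G, h1, h2, h3⟩ := h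
  refine ⟨G, h1, h2, h3.trans (M31.P2_mono hq _ fun ω ω' _ _ _ h =>
    ⟨h.1, h.2.1, h.2.2.1, fun b hb => (h.2.2.2 b hb).trans ?_⟩)⟩
  refine div_le_div_of_nonneg_right ?_ (by positivity)
  exact Real.exp_le_exp.2 (mul_le_mul_of_nonneg_right hC (Nat.cast_nonneg z))

/-- **Row N5, system half**: one vector of slopes. -/
theorem sta_abs (n K A : ℕ) (σ : ℕ → ℝ) (C₁ C₂ a : ℝ) (hn : 1 ≤ n) (hσ0 : σ 0 = 1)
    (hσ : ∀ i, 1 ≤ σ i) (hC₁ : 1 ≤ C₁) (hC₂ : 1 ≤ C₂) (ha : 0 < a) (ha1 : a ≤ 1) :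
    ∃ c : StaC, StaG n K A C₁ C₂ a c σ := by
  classical
  set d : ℕ → ℕ := fun i => ⌈σ i⌉₊ with hd
  have hd0 : d 0 = 1 := by rw [hd]; simp [hσ0]
  have hd1 : ∀ i, 1 ≤ d i := fun i => by
    have : 0 < d i := Nat.ceil_pos.2 (lt_of_lt_of_le one_pos (hσ i))
    omega
  obtain ⟨C₃, ρ, hC₃, hρ, hρ1, hU⟩ := ucw_full n ((K + 1) ^ (n + 2)) d C₁ C₂ a hn hd0 hd1 hC₁ hC₂
    ha.le ha1
  obtain ⟨U, M, K', C₆, η', κa, za, hU1, hη', hκa, hS⟩ :=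
    sta_thm n ((K + 1) ^ (n + 2)) A σ C₁ C₃ a ρ hn hσ0 hσ hC₁ hC₃ ha hρ hρ1
  obtain ⟨κb, hκb, hB⟩ := hU U M hU1
  refine ⟨⟨U, M, K + K' * (K + 1), max C₆ 0, η', min κa κb, hU1, le_max_right _ _, hη',
    lt_min hκa hκb⟩, fun κ₂ hκ₂ => ?_⟩
  obtain ⟨zb, hzb⟩ := hB κ₂ hκ₂
  refine ⟨max za zb, fun J w₀ z D p A₀ 𝒱 Vf tot hz hp hA₀ hOk hRow => ?_⟩
  simp only at hOk hRow ⊢
  have hza : za ≤ z := (le_max_left _ _).trans hz
  have hzb' : zb ≤ z := (le_max_right _ _).trans hz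
  have hexp1 : Real.exp (-(κ₂ * z)) * Pe p A₀ ≤ Pe p A₀ := by
    have h1 : Real.exp (-(κ₂ * z)) ≤ 1 := by
      rw [Real.exp_le_one_iff]
      have : 0 ≤ κ₂ * (z : ℝ) := mul_nonneg hκ₂.le (Nat.cast_nonneg z)
      linarith
    calc _ ≤ 1 * Pe p A₀ := mul_le_mul_of_nonneg_right h1 hA₀.le
      _ = _ := one_mul _
  -- the label of level 0 and the window as functions of the line
  have hO := hOk A₀ (fun _ h => h) hexp1
  obtain ⟨ω₀, hω₀⟩ : ∃ ω, 0 < Pool.Agent.H49.Ent.cond p A₀ True ω := by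
    by_contra hc
    push Not at hc
    have h1 := hO.isLaw.sum_one
    have h2 : ∑ ω, Pool.Agent.H49.Ent.cond p A₀ True ω ≤ 0 := Finset.sum_nonpos fun ω _ => hc ω
    linarith
  have : Nonempty D.Γ := ⟨D.c 0 ω₀⟩
  have hdet : Det (Pool.Agent.H49.Ent.cond p A₀ True) D.ln (D.c 0) := by
    intro ω ω' hω hω' e
    refine hO.c_wn 0 (Nat.zero_le _) ω ω' hω hω' (Prod.ext e ?_)
    have := hO.ln_w ω ω' hω hω' e
    simpa [NDat.wn] using this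
  obtain ⟨φ, hφ⟩ := det_fun hdet
  obtain ⟨ψ, hψ⟩ := det_fun (T := ℕ) (Y := D.wd J w₀) hO.ln_w
  -- supports
  have hsupp : ∀ B : D.Ω → Prop, (∀ ω, B ω → A₀ ω) → ∀ ω,
      0 < Pool.Agent.H49.Ent.cond p B True ω → 0 < Pool.Agent.H49.Ent.cond p A₀ True ω := by
    intro B hB ω hω
    obtain ⟨h1, h2⟩ := (cond_pos_iff hp.nonneg _ _ ω).1 hω
    exact (cond_pos_iff hp.nonneg _ _ ω).2 ⟨h1, eq_true (hB ω (of_eq_true h2))⟩
  have hOk' : ∀ B : D.Ω → Prop, (∀ ω, B ω → A₀ ω) → Real.exp (-(κ₂ * z)) * Pe p A₀ ≤ Pe p B →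
      (D.nrmd n J w₀ φ ψ).Ok n ((K + 1) ^ (n + 2)) (J - w₀) z M σ (min κa κb) C₁
        (Pool.Agent.H49.Ent.cond p B True) := fun B hB hBp =>
    NDat.ok_nrmd (hOk B hB hBp) φ ψ (fun ω hω => hφ ω (hsupp B hB ω hω))
      (fun ω hω => hψ ω (hsupp B hB ω hω))
  by_cases hint : ∀ i ≤ n, (d i : ℝ) = σ i
  · obtain ⟨B, hBA, hBp, hCnt⟩ := hzb (J - w₀) z (D.nrmd n J w₀ φ ψ) p A₀ 𝒱 Vf tot hzb' hp hA₀
      (fun B hB hBp => ⟨((hOk' B hB hBp).mono (min_le_right _ _)).congr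
        (fun i => by exact_mod_cast hd1 i) hint, hRow hint φ ψ B hB hBp⟩)
    obtain ⟨v, v', i, h1, h2, h3, h4, h5⟩ := hS (J - w₀) z (D.nrmd n J w₀ φ ψ)
      (Pool.Agent.H49.Ent.cond p B True) hza ((hOk' B hBA hBp).mono (min_le_left _ _))
      (fun _ => hCnt)
    exact ⟨B, hBA, hBp, v, v', i, h1, h2, h3, h4,
      (NDat.newlab_nrmd (hOk B hBA hBp) φ ψ h4 h3 h1 h2 h5).mono
        (hOk B hBA hBp).isLaw.nonneg (le_max_left _ _)⟩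
  · obtain ⟨v, v', i, h1, h2, h3, h4, h5⟩ := hS (J - w₀) z (D.nrmd n J w₀ φ ψ)
      (Pool.Agent.H49.Ent.cond p A₀ True) hza
      ((hOk' A₀ (fun _ h => h) hexp1).mono (min_le_left _ _)) (fun h => absurd h hint)
    exact ⟨A₀, fun _ h => h, hexp1, v, v', i, h1, h2, h3, h4,
      (NDat.newlab_nrmd hO φ ψ h4 h3 h1 h2 h5).mono hO.isLaw.nonneg (le_max_left _ _)⟩

/-- A system with the slopes `σ` is a system with the slopes `σ'` if they are near. -/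
theorem NDat.Ok0.slope {D : NDat} {n K J w₀ z M : ℕ} {σ σ' : ℕ → ℝ} {κ C₁ : ℝ} {q : D.Ω → ℝ}
    (h : D.Ok0 n K J w₀ z M σ κ C₁ q) (h0 : σ' 0 = 1) (h1 : ∀ i, 1 ≤ σ' i)
    (hs : ∀ i ≤ n, |σ i - σ' i| * M ≤ 1) : D.Ok0 n K J w₀ z M σ' κ (C₁ + 1) q where
  isLaw := h.isLaw
  top := h.top
  T_lt := h.T_lt
  X_zero := h.X_zero
  ln_w := h.ln_w
  time := h.time
  c_wn := h.c_wn
  c_c := h.c_c
  c_T := h.c_T
  P_deg := h.P_deg
  P_tri := h.P_tri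
  R_deg := h.R_deg
  R_tri := h.R_tri
  σ_zero := h0
  σ_ge := h1
  g_zero := h.g_zero
  g_ge := h.g_ge
  hom k hk i hi := by
    have e1 : (D.g k i : ℝ) - D.g 0 i - σ' i * (k * z) =
        (D.g k i - D.g 0 i - σ i * (k * z)) + (σ i - σ' i) * (k * z) := by ring
    rw [e1]
    refine (abs_add_le _ _).trans ?_
    have hz : (0 : ℝ) ≤ z := Nat.cast_nonneg z
    have hkM : (k : ℝ) ≤ M := by exact_mod_cast hk
    have h2 : |(σ i - σ' i) * (k * z)| ≤ 1 * z := by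
      rw [abs_mul, abs_of_nonneg (by positivity : (0 : ℝ) ≤ k * z), ← mul_assoc]
      refine mul_le_mul_of_nonneg_right ?_ hz
      exact (mul_le_mul_of_nonneg_left hkM (abs_nonneg _)).trans (hs i hi)
    have h3 := h.hom k hk i hi
    linarith
  hgt := h.hgt
  line ω hω i h1 hi b hb := by
    refine (h.line ω hω i h1 hi b hb).trans ?_
    refine div_le_div_of_nonneg_right ?_ (by positivity)
    exact Real.exp_le_exp.2 (mul_le_mul_of_nonneg_right (by linarith) (Nat.cast_nonneg z))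
  full := h.full

/-- Slopes which are not integral: the constants are good for the near slopes. -/
theorem StaG.near {n K A : ℕ} {C₁ C₂ a : ℝ} {c : StaC} {σ σ' : ℕ → ℝ}
    (h : StaG n K A (C₁ + 1) C₂ a c σ) (h0 : σ 0 = 1) (h1 : ∀ i, 1 ≤ σ i)
    (hs : ∀ i ≤ n, |σ' i - σ i| * c.M ≤ 1) (hi : ¬ ∀ i ≤ n, (⌈σ i⌉₊ : ℝ) = σ i) :
    StaG n K A C₁ C₂ a c σ' := by
  intro κ₂ hκ₂
  obtain ⟨z₀, hz₀⟩ := h κ₂ hκ₂
  refine ⟨z₀, fun J w₀ z D p A₀ 𝒱 Vf tot hz hp hA₀ hOk _ => ?_⟩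
  exact hz₀ J w₀ z D p A₀ 𝒱 Vf tot hz hp hA₀ (fun B hB hBp => (hOk B hB hBp).slope h0 h1 hs)
    (fun h => absurd h hi)

/-- The inputs of a row depend on the weight of the height only. -/
theorem NDat.Row.congr {D : NDat} {n z M U : ℕ} {d d' : ℕ → ℕ} {a C : ℝ} {𝒱 : Type}
    {Vf : D.Ω → 𝒱} {tot : ℝ} {v : ℕ} {q : D.Ω → ℝ} (h : D.Row n z M U d a C Vf tot v q)
    (hd : d' n = d n) : D.Row n z M U d' a C Vf tot v q where
  exact := h.exact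
  count := h.count
  rate P hP := by
    have e : D.pN d' z v n = D.pN d z v n := by
      funext ω
      unfold NDat.pN
      rw [hd]
    rw [e]
    exact h.rate P hP

/-- The constants for equal slopes. -/
theorem StaG.congr {n K A : ℕ} {C₁ C₂ a : ℝ} {c : StaC} {σ σ' : ℕ → ℝ}
    (h : StaG n K A (C₁ + 1) C₂ a c σ) (h0 : σ 0 = 1) (h1 : ∀ i, 1 ≤ σ i)
    (hs : ∀ i ≤ n, σ i = σ' i) : StaG n K A C₁ C₂ a c σ' := by
  intro κ₂ hκ₂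
  obtain ⟨z₀, hz₀⟩ := h κ₂ hκ₂
  refine ⟨z₀, fun J w₀ z D p A₀ 𝒱 Vf tot hz hp hA₀ hOk hRow => ?_⟩
  refine hz₀ J w₀ z D p A₀ 𝒱 Vf tot hz hp hA₀ (fun B hB hBp => (hOk B hB hBp).slope h0 h1
    fun i hi => by rw [hs i hi, sub_self, abs_zero, zero_mul]; exact zero_le_one)
    (fun hall φ ψ B hB hBp k hk => ?_)
  refine (hRow (fun i hi => ?_) φ ψ B hB hBp k hk).congr ?_
  · rw [← hs i hi]
    exact hall i hi
  · rw [hs n le_rfl]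

/-- **Row N5, system half**: countably many sets of constants for all the slopes. -/
theorem sta_abs_cover (n K A : ℕ) (C₁ C₂ a : ℝ) (hn : 1 ≤ n) (hC₁ : 1 ≤ C₁) (hC₂ : 1 ≤ C₂)
    (ha : 0 < a) (ha1 : a ≤ 1) :
    ∃ (S : ℕ → ℕ → ℝ) (c : ℕ → StaC), (∀ j, S j 0 = 1 ∧ ∀ i, 1 ≤ S j i) ∧
    ∀ σ : ℕ → ℝ, σ 0 = 1 → (∀ i, 1 ≤ σ i) → ∃ j,
      (∀ i ≤ n, |σ i - S j i| * (((c j).M : ℝ) + 1) ≤ 1) ∧
      ((∀ i ≤ n, (⌈S j i⌉₊ : ℝ) = S j i) → ∀ i ≤ n, σ i = S j i) ∧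
      StaG n K A C₁ C₂ a (c j) σ := by
  classical
  have h0 := fun v : {v : Fin (n + 1) → ℝ // v 0 = 1 ∧ ∀ i, 1 ≤ v i} =>
    sta_abs n K A (slp n v.1) (C₁ + 1) C₂ a hn ((slp_of_le v.1 (Nat.zero_le n)).trans v.2.1)
      (slp_ge v.2.2) (by linarith) hC₂ ha ha1
  choose c hc using h0
  obtain ⟨I, hI⟩ : ∃ I : Set {v : Fin (n + 1) → ℝ // v 0 = 1 ∧ ∀ i, 1 ≤ v i},
      I = {v | ∀ i ≤ n, (⌈slp n v.1 i⌉₊ : ℝ) = slp n v.1 i} := ⟨_, rfl⟩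
  have hIc : I.Countable := by
    refine Set.MapsTo.countable_of_injOn (t := Set.univ)
      (f := fun v : {v : Fin (n + 1) → ℝ // v 0 = 1 ∧ ∀ i, 1 ≤ v i} =>
        (fun i => ⌈v.1 i⌉₊ : Fin (n + 1) → ℕ)) (fun _ _ => Set.mem_univ _) ?_ Set.countable_univ
    intro v hv w hw hvw
    rw [hI] at hv hw
    apply Subtype.ext
    funext i
    have h1 := hv i.1 (Nat.lt_succ_iff.1 i.2)
    have h2 := hw i.1 (Nat.lt_succ_iff.1 i.2)
    rw [slp_of_le _ (Nat.lt_succ_iff.1 i.2)] at h1 h2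
    have h3 : ⌈v.1 i⌉₊ = ⌈w.1 i⌉₊ := congrFun hvw i
    have h1' : (⌈v.1 i⌉₊ : ℝ) = v.1 i := h1
    have h2' : (⌈w.1 i⌉₊ : ℝ) = w.1 i := h2
    rw [← h1', ← h2', h3]
  obtain ⟨O, hO⟩ : ∃ O : {v : Fin (n + 1) → ℝ // v 0 = 1 ∧ ∀ i, 1 ≤ v i} →
      Set (Fin (n + 1) → ℝ),
      O = fun v => if v ∈ I then ∅ else Metric.ball v.1 (1 / (((c v).M : ℝ) + 1)) := ⟨_, rfl⟩
  obtain ⟨T, hTc, hT⟩ := TopologicalSpace.isOpen_iUnion_countable O (fun v => by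
    rw [hO]
    simp only
    split_ifs
    · exact isOpen_empty
    · exact Metric.isOpen_ball)
  have hmem : ∀ v : {v : Fin (n + 1) → ℝ // v 0 = 1 ∧ ∀ i, 1 ≤ v i}, v ∉ I →
      ∃ r ∈ T, r ∉ I ∧ dist v.1 r.1 < 1 / (((c r).M : ℝ) + 1) := by
    intro v hv
    have h1 : v.1 ∈ ⋃ i, O i := Set.mem_iUnion.2 ⟨v, by
      rw [hO]
      simp only
      rw [if_neg hv]
      exact Metric.mem_ball_self (by positivity)⟩
    rw [← hT] at h1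
    obtain ⟨r, hr, h2⟩ := Set.mem_iUnion₂.1 h1
    rw [hO] at h2
    simp only at h2
    by_cases hrI : r ∈ I
    · rw [if_pos hrI] at h2
      exact absurd h2 (Set.notMem_empty _)
    · rw [if_neg hrI] at h2
      exact ⟨r, hr, hrI, Metric.mem_ball.1 h2⟩
  have hne : (T ∪ I).Nonempty := by
    refine ⟨⟨fun _ => 1, rfl, fun _ => le_rfl⟩, Or.inr ?_⟩
    rw [hI]
    intro i hi
    rw [slp_of_le _ hi]
    simp
  obtain ⟨f, hf⟩ := (hTc.union hIc).exists_eq_range hne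
  have hf0 : ∀ j, slp n (f j).1 0 = 1 := fun j => (slp_of_le _ (Nat.zero_le n)).trans (f j).2.1
  refine ⟨fun j => slp n (f j).1, fun j => c (f j), fun j => ⟨hf0 j, slp_ge (f j).2.2⟩,
    fun σ hσ0 hσ => ?_⟩
  -- the vector of the slopes
  obtain ⟨v, hv⟩ : ∃ v : {v : Fin (n + 1) → ℝ // v 0 = 1 ∧ ∀ i, 1 ≤ v i},
      ∀ i : Fin (n + 1), v.1 i = σ i :=
    ⟨⟨fun i => σ i, hσ0, fun i => hσ i⟩, fun _ => rfl⟩
  have hvs : ∀ i ≤ n, slp n v.1 i = σ i := fun i hi => by rw [slp_of_le _ hi, hv]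
  by_cases hvI : v ∈ I
  · -- integral slopes
    have hr : v ∈ T ∪ I := Or.inr hvI
    rw [hf] at hr
    obtain ⟨j, hj⟩ := hr
    have hj1 : ∀ i ≤ n, slp n (f j).1 i = σ i := fun i hi => by rw [hj, hvs i hi]
    refine ⟨j, fun i hi => ?_, fun _ i hi => (hj1 i hi).symm, (hc (f j)).congr (hf0 j)
      (slp_ge (f j).2.2) hj1⟩
    simp only
    rw [hj1 i hi, sub_self, abs_zero, zero_mul]
    exact zero_le_one
  · -- other slopes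
    obtain ⟨r, hrT, hrI, hdist⟩ := hmem v hvI
    have hr : r ∈ T ∪ I := Or.inl hrT
    rw [hf] at hr
    obtain ⟨j, hj⟩ := hr
    have hd : ∀ i ≤ n, |σ i - slp n (f j).1 i| * (((c (f j)).M : ℝ) + 1) ≤ 1 := by
      intro i hi
      rw [hj]
      have h1 : dist (v.1 ⟨i, Nat.lt_succ_of_le hi⟩) (r.1 ⟨i, Nat.lt_succ_of_le hi⟩) <
          1 / (((c r).M : ℝ) + 1) := (dist_pi_lt_iff (by positivity)).1 hdist _
      rw [hv, Real.dist_eq, lt_div_iff₀ (by positivity)] at h1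
      rw [slp_of_le _ hi]
      exact h1.le
    have hrn : ¬ ∀ i ≤ n, (⌈slp n (f j).1 i⌉₊ : ℝ) = slp n (f j).1 i := by
      rw [hj]
      intro h
      apply hrI
      rw [hI]
      exact h
    refine ⟨j, hd, fun hall => absurd hall hrn, (hc (f j)).near (hf0 j) (slp_ge (f j).2.2)
      (fun i hi => ?_) hrn⟩
    refine le_trans ?_ (hd i hi)
    exact mul_le_mul_of_nonneg_left (by linarith) (abs_nonneg _)

end Pool.STAT
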